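import Pool.Agent.Helper48.WeissJ.Defs

/-! Basic facts on capacities. -/

set_option linter.unusedVariables false
set_option linter.style.haveILetI false

open Set Filter Topology

namespace Pool.Agent.Helper48.WeissJ

variable {X : Type*} {Λ : Type*}

section top

variable [TopologicalSpace X] {F : X → X} {q : Λ → X → ℝ}

theorem IsCoding.qw_nonneg (hq : IsCoding q) (g : ℕ) (w : Fin g → Λ) (x : X) :
    0 ≤ qw F q g w x := Finset.prod_nonneg (fun s _ => hq.nonneg _ _)

theorem IsCoding.qw_le_one (hq : IsCoding q) (g : ℕ) (w : Fin g → Λ) (x : X) :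
    qw F q g w x ≤ 1 := Finset.prod_le_one (fun s _ => hq.nonneg _ _) (fun s _ => hq.le_one _ _)

theorem IsCoding.bdd (hq : IsCoding q) (g : ℕ) (w : Fin g → Λ) (Y : Set X) :
    BddAbove (qw F q g w '' Y) :=
  ⟨1, by rintro _ ⟨y, -, rfl⟩; exact hq.qw_le_one g w y⟩

theorem IsCoding.top_nonneg (hq : IsCoding q) (g : ℕ) (w : Fin g → Λ) (Y : Set X) :
    0 ≤ top F q g w Y := by
  refine Real.sSup_nonneg ?_
  rintro _ ⟨y, -, rfl⟩
  exact hq.qw_nonneg g w y

theorem IsCoding.le_top (hq : IsCoding q) {g : ℕ} {w : Fin g → Λ} {Y : Set X} {y : X}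
    (hy : y ∈ Y) : qw F q g w y ≤ top F q g w Y :=
  le_csSup (hq.bdd g w Y) ⟨y, hy, rfl⟩

omit [TopologicalSpace X] in
theorem top_le {F : X → X} {q : Λ → X → ℝ} {g : ℕ} {w : Fin g → Λ} {Y : Set X} {c : ℝ}
    (hc : 0 ≤ c) (h : ∀ y ∈ Y, qw F q g w y ≤ c) : top F q g w Y ≤ c := by
  refine Real.sSup_le ?_ hc
  rintro _ ⟨y, hy, rfl⟩
  exact h y hy

theorem IsCoding.top_le_one (hq : IsCoding q) (g : ℕ) (w : Fin g → Λ) (Y : Set X) :
    top F q g w Y ≤ 1 := top_le zero_le_one (fun y _ => hq.qw_le_one g w y)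

theorem IsCoding.top_mono (hq : IsCoding q) {g : ℕ} {w : Fin g → Λ} {Y Z : Set X} (h : Y ⊆ Z) :
    top F q g w Y ≤ top F q g w Z :=
  top_le (hq.top_nonneg g w Z) (fun _ hy => hq.le_top (h hy))

omit [TopologicalSpace X] in
/-- The weight of a concatenation. -/
theorem qw_append (F : X → X) (q : Λ → X → ℝ) (g h : ℕ) (w : Fin g → Λ) (w' : Fin h → Λ) (x : X) :
    qw F q (g + h) (Fin.append w w') x = qw F q g w x * qw F q h w' (F^[g] x) := by
  unfold qw
  rw [Fin.prod_univ_add]
  congr 1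
  · refine Finset.prod_congr rfl (fun s _ => ?_)
    rw [Fin.append_left, Fin.val_castAdd]
  · refine Finset.prod_congr rfl (fun s _ => ?_)
    rw [Fin.append_right, Fin.val_natAdd, ← Function.iterate_add_apply, add_comm g]

/-- A point where no word of length `g` has positive weight, or exactly one. -/
theorem IsCoding.qw_unique (hq : IsCoding q) {g : ℕ} {w w' : Fin g → Λ} {x : X}
    (h : 0 < qw F q g w x) (h' : 0 < qw F q g w' x) : w = w' := by
  funext s
  by_contra hne
  rcases hq.disj _ _ (F^[s] x) hne with h1 | h1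
  · exact h.ne' (Finset.prod_eq_zero (Finset.mem_univ s) h1)
  · exact h'.ne' (Finset.prod_eq_zero (Finset.mem_univ s) h1)

theorem IsCoding.pos_of_qw_pos (hq : IsCoding q) {g : ℕ} {w : Fin g → Λ} {x : X}
    (h : 0 < qw F q g w x) (s : Fin g) : 0 < q (w s) (F^[s] x) := by
  refine lt_of_le_of_ne (hq.nonneg _ _) (fun h1 => ?_)
  exact h.ne' (Finset.prod_eq_zero (Finset.mem_univ s) h1.symm)

theorem continuous_qw (hF : Continuous F) (hq : IsCoding q) (g : ℕ) (w : Fin g → Λ) :
    Continuous (qw F q g w) :=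
  continuous_finsetProd _ (fun s _ => (hq.cont _).comp (hF.iterate s))

end top

section cap

variable [TopologicalSpace X] [Fintype Λ] {F : X → X} {q : Λ → X → ℝ}

theorem IsCoding.cap_nonneg (hq : IsCoding q) (g : ℕ) (Y : Set X) : 0 ≤ cap F q g Y :=
  Finset.sum_nonneg (fun w _ => hq.top_nonneg g w Y)

theorem IsCoding.cap_mono (hq : IsCoding q) {g : ℕ} {Y Z : Set X} (h : Y ⊆ Z) :
    cap F q g Y ≤ cap F q g Z := Finset.sum_le_sum (fun _ _ => hq.top_mono h)

theorem IsCoding.cap_le_pow (hq : IsCoding q) (g : ℕ) (Y : Set X) :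
    cap F q g Y ≤ (Fintype.card Λ : ℝ) ^ g := by
  calc cap F q g Y ≤ ∑ _w : Fin g → Λ, (1 : ℝ) := Finset.sum_le_sum (fun w _ => hq.top_le_one g w Y)
    _ = (Fintype.card Λ : ℝ) ^ g := by simp

/-- Subadditivity. -/
theorem IsCoding.cap_iUnion_le (hq : IsCoding q) {I : Type*} [Fintype I] {g : ℕ} {Y : Set X}
    {Z : I → Set X} (h : Y ⊆ ⋃ i, Z i) : cap F q g Y ≤ ∑ i, cap F q g (Z i) := by
  unfold cap
  rw [Finset.sum_comm]
  refine Finset.sum_le_sum (fun w _ => ?_)
  refine top_le (Finset.sum_nonneg (fun i _ => hq.top_nonneg g w _)) (fun y hy => ?_)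
  obtain ⟨i, hi⟩ := mem_iUnion.1 (h hy)
  exact (hq.le_top hi).trans (Finset.single_le_sum (f := fun i => top F q g w (Z i))
    (fun i _ => hq.top_nonneg g w _) (Finset.mem_univ i))

theorem IsCoding.cap_finset_le (hq : IsCoding q) {I : Type*} (A : Finset I) {g : ℕ} {Y : Set X}
    {Z : I → Set X} (h : ∀ y ∈ Y, ∃ i ∈ A, y ∈ Z i) :
    cap F q g Y ≤ ∑ i ∈ A, cap F q g (Z i) := by
  unfold cap
  rw [Finset.sum_comm]
  refine Finset.sum_le_sum (fun w _ => ?_)
  refine top_le (Finset.sum_nonneg (fun i _ => hq.top_nonneg g w _)) (fun y hy => ?_)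
  obtain ⟨i, hi, hy'⟩ := h y hy
  exact (hq.le_top hy').trans (Finset.single_le_sum (f := fun i => top F q g w (Z i))
    (fun i _ => hq.top_nonneg g w _) hi)

/-- Submultiplicativity. -/
theorem IsCoding.cap_add_le (hq : IsCoding q) {g h : ℕ} {Y Z : Set X}
    (hYZ : ∀ y ∈ Y, F^[g] y ∈ Z) : cap F q (g + h) Y ≤ cap F q g Y * cap F q h Z := by
  unfold cap
  rw [Finset.sum_mul_sum, ← (Fin.appendEquiv g h).sum_comp, Fintype.sum_prod_type]
  refine Finset.sum_le_sum (fun w _ => Finset.sum_le_sum (fun w' _ => ?_))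
  refine top_le (mul_nonneg (hq.top_nonneg _ _ _) (hq.top_nonneg _ _ _)) (fun y hy => ?_)
  show qw F q (g + h) (Fin.append w w') y ≤ _
  rw [qw_append]
  exact mul_le_mul (hq.le_top hy) (hq.le_top (hYZ y hy)) (hq.qw_nonneg _ _ _)
    (hq.top_nonneg _ _ _)

omit [TopologicalSpace X] in
theorem cap_zero_le (F : X → X) (q : Λ → X → ℝ) (Y : Set X) : cap F q 0 Y ≤ 1 := by
  unfold cap
  rw [Fintype.sum_unique]
  refine top_le zero_le_one (fun y _ => ?_)
  simp [qw]

omit [TopologicalSpace X] in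
theorem cap_zero_univ [Nonempty X] (F : X → X) (q : Λ → X → ℝ) : cap F q 0 univ = 1 := by
  unfold cap
  rw [Fintype.sum_unique]
  unfold top qw
  simp

theorem IsCoding.tot_nonneg (hq : IsCoding q) (g : ℕ) (x : X) : 0 ≤ tot F q g x :=
  Finset.prod_nonneg (fun s _ => Finset.sum_nonneg (fun a _ => hq.nonneg _ _))

theorem IsCoding.qw_le_tot (hq : IsCoding q) (g : ℕ) (w : Fin g → Λ) (x : X) :
    qw F q g w x ≤ tot F q g x :=
  Finset.prod_le_prod (fun s _ => hq.nonneg _ _) (fun s _ =>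
    Finset.single_le_sum (f := fun a => q a (F^[s] x)) (fun a _ => hq.nonneg _ _)
      (Finset.mem_univ _))

/-- The total weight is attained by one word. -/
theorem IsCoding.exists_qw_eq_tot (hq : IsCoding q) {g : ℕ} {x : X} (h : 0 < tot F q g x) :
    ∃ w, qw F q g w x = tot F q g x := by
  classical
  have h1 : ∀ s : Fin g, ∃ a, q a (F^[s] x) = ∑ b, q b (F^[s] x) := by
    intro s
    have h2 : (∑ b, q b (F^[s] x)) ≠ 0 := fun h3 =>
      h.ne' (Finset.prod_eq_zero (Finset.mem_univ s) h3)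
    obtain ⟨a, -, ha⟩ := Finset.exists_ne_zero_of_sum_ne_zero h2
    refine ⟨a, (Finset.sum_eq_single (f := fun b => q b (F^[s] x)) a (fun b _ hb => ?_)
      (fun h3 => absurd (Finset.mem_univ a) h3)).symm⟩
    rcases hq.disj b a (F^[s] x) hb with h3 | h3
    · exact h3
    · exact absurd h3 ha
  choose w hw using h1
  exact ⟨w, Finset.prod_congr rfl (fun s _ => hw s)⟩

theorem IsCoding.qw_eq_tot (hq : IsCoding q) {g : ℕ} {w : Fin g → Λ} {x : X}
    (h : 0 < qw F q g w x) : qw F q g w x = tot F q g x := by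
  obtain ⟨w', hw'⟩ := hq.exists_qw_eq_tot (h.trans_le (hq.qw_le_tot g w x))
  have : w = w' := hq.qw_unique h (by rw [hw']; exact h.trans_le (hq.qw_le_tot g w x))
  rw [this, hw']

theorem continuous_tot (hF : Continuous F) (hq : IsCoding q) (g : ℕ) :
    Continuous (tot F q g) :=
  continuous_finsetProd _ (fun s _ => continuous_finsetSum _
    (fun a _ => (hq.cont a).comp (hF.iterate s)))

omit [TopologicalSpace X] in
theorem PB.nonempty {p : ℝ} (h : PB F q p) : Nonempty Λ := by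
  by_contra hcon
  rw [not_nonempty_iff] at hcon
  have h1 := h 1
  have h2 : cap F q 1 (univ : Set X) = 0 := by
    unfold cap
    haveI : IsEmpty (Fin 1 → Λ) := ⟨fun w => hcon.false (w 0)⟩
    rw [Fintype.sum_empty]
  rw [h2] at h1
  exact absurd (Real.exp_pos _) (not_lt.2 h1)

end cap

section refi

variable [TopologicalSpace X]

theorem up_nonneg (κ : ℝ) {ω : ℝ} (hω : 0 < ω) (t : ℝ) : 0 ≤ up κ ω t :=
  le_min zero_le_one (div_nonneg (le_max_left _ _) hω.le)

theorem dn_nonneg (κ : ℝ) {ω : ℝ} (hω : 0 < ω) (t : ℝ) : 0 ≤ dn κ ω t :=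
  le_min zero_le_one (div_nonneg (le_max_left _ _) hω.le)

theorem up_le_one (κ ω t : ℝ) : up κ ω t ≤ 1 := min_le_left _ _

theorem dn_le_one (κ ω t : ℝ) : dn κ ω t ≤ 1 := min_le_left _ _

theorem up_eq_zero {κ ω t : ℝ} (h : t ≤ κ) : up κ ω t = 0 := by
  unfold up
  rw [max_eq_left (by linarith), zero_div, min_eq_right zero_le_one]

theorem dn_eq_zero {κ ω t : ℝ} (h : κ ≤ t) : dn κ ω t = 0 := by
  unfold dn
  rw [max_eq_left (by linarith), zero_div, min_eq_right zero_le_one]

theorem up_eq {κ ω t : ℝ} (h : κ ≤ t) : up κ ω t = min 1 (|t - κ| / ω) := by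
  unfold up
  rw [max_eq_right (by linarith), abs_of_nonneg (by linarith)]

theorem dn_eq {κ ω t : ℝ} (h : t ≤ κ) : dn κ ω t = min 1 (|t - κ| / ω) := by
  unfold dn
  rw [max_eq_right (by linarith), abs_of_nonpos (by linarith), neg_sub]

theorem refi_le {q : Λ → X → ℝ} (hq : IsCoding q) (v : X → ℝ) (κ ω : ℝ)
    (a : Λ) (σ : Bool) (x : X) : refi q v κ ω (a, σ) x ≤ q a x := by
  unfold refi
  refine mul_le_of_le_one_right (hq.nonneg _ _) ?_
  dsimp only
  split_ifs
  · exact up_le_one _ _ _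
  · exact dn_le_one _ _ _

theorem IsCoding.refi {q : Λ → X → ℝ} (hq : IsCoding q) {v : X → ℝ} (hv : Continuous v) (κ : ℝ)
    {ω : ℝ} (hω : 0 < ω) : IsCoding (refi q v κ ω) where
  cont := by
    rintro ⟨a, σ⟩
    unfold WeissJ.refi
    refine (hq.cont a).mul ?_
    dsimp only
    split_ifs
    · exact continuous_const.min ((continuous_const.max (hv.sub continuous_const)).div_const _)
    · exact continuous_const.min ((continuous_const.max (continuous_const.sub hv)).div_const _)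
  nonneg := by
    rintro ⟨a, σ⟩ x
    unfold WeissJ.refi
    refine mul_nonneg (hq.nonneg _ _) ?_
    dsimp only
    split_ifs
    · exact up_nonneg _ hω _
    · exact dn_nonneg _ hω _
  le_one := by
    rintro ⟨a, σ⟩ x
    exact (refi_le hq v κ ω a σ x).trans (hq.le_one _ _)
  disj := by
    rintro ⟨a, σ⟩ ⟨b, τ⟩ x hne
    unfold WeissJ.refi
    by_cases hab : a = b
    · subst hab
      have hστ : σ ≠ τ := fun h => hne (by rw [h])
      cases σ <;> cases τ <;> simp only [ne_eq, not_true_eq_false] at hστ <;>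
        simp only [if_true, Bool.false_eq_true, if_false]
      · rcases le_total (v x) κ with h | h
        · right; rw [up_eq_zero h, mul_zero]
        · left; rw [dn_eq_zero h, mul_zero]
      · rcases le_total (v x) κ with h | h
        · left; rw [up_eq_zero h, mul_zero]
        · right; rw [dn_eq_zero h, mul_zero]
    · rcases hq.disj a b x hab with h | h
      · left; rw [h, zero_mul]
      · right; rw [h, zero_mul]

theorem refi_true_pos {q : Λ → X → ℝ} (hq : IsCoding q) {v : X → ℝ} {κ ω : ℝ}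
    {a : Λ} {x : X} (h : 0 < refi q v κ ω (a, true) x) : 0 < q a x ∧ κ < v x := by
  refine ⟨h.trans_le (refi_le hq v κ ω a true x), ?_⟩
  by_contra hcon
  unfold refi at h
  simp only [if_true] at h
  rw [up_eq_zero (not_lt.1 hcon), mul_zero] at h
  exact lt_irrefl _ h

theorem refi_false_pos {q : Λ → X → ℝ} (hq : IsCoding q) {v : X → ℝ} {κ ω : ℝ}
    {a : Λ} {x : X} (h : 0 < refi q v κ ω (a, false) x) : 0 < q a x ∧ v x < κ := by
  refine ⟨h.trans_le (refi_le hq v κ ω a false x), ?_⟩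
  by_contra hcon
  unfold refi at h
  simp only [Bool.false_eq_true, if_false] at h
  rw [dn_eq_zero (not_lt.1 hcon), mul_zero] at h
  exact lt_irrefl _ h

end refi

end Pool.Agent.Helper48.WeissJ
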