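import Pool.Agent.Helper48.WeissJ.Goals

set_option linter.unusedVariables false

open Set Filter Topology

namespace Pool.Agent.Helper48.WeissJ

universe u

/-- The coding given by balls. -/
noncomputable def bq {X : Type*} [MetricSpace X] {n : ℕ} (z : Fin n → X) (κ ω : ℝ) :
    (Fin n → Bool) → X → ℝ :=
  fun a x => ∏ i, (if a i then dn κ ω (dist x (z i)) else up κ ω (dist x (z i)))

theorem bq_coding {X : Type*} [MetricSpace X] {n : ℕ} (z : Fin n → X) (κ : ℝ) {ω : ℝ}
    (hω : 0 < ω) : IsCoding (bq z κ ω) where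
  cont := by
    intro a
    unfold bq
    refine continuous_finsetProd _ (fun i _ => ?_)
    have hd : Continuous (fun x : X => dist x (z i)) := continuous_id.dist continuous_const
    split_ifs
    · exact continuous_const.min ((continuous_const.max (continuous_const.sub hd)).div_const _)
    · exact continuous_const.min ((continuous_const.max (hd.sub continuous_const)).div_const _)
  nonneg := by
    intro a x
    refine Finset.prod_nonneg (fun i _ => ?_)
    split_ifs
    · exact dn_nonneg _ hω _
    · exact up_nonneg _ hω _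
  le_one := by
    intro a x
    refine Finset.prod_le_one (fun i _ => ?_) (fun i _ => ?_)
    · split_ifs
      · exact dn_nonneg _ hω _
      · exact up_nonneg _ hω _
    · split_ifs
      · exact dn_le_one _ _ _
      · exact up_le_one _ _ _
  disj := by
    intro a b x hab
    obtain ⟨i, hi⟩ := Function.ne_iff.1 hab
    have key : ∀ a b : Fin n → Bool, a i = true → b i = false →
        bq z κ ω a x = 0 ∨ bq z κ ω b x = 0 := by
      intro a b ha hb
      rcases le_total (dist x (z i)) κ with h | h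
      · right
        refine Finset.prod_eq_zero (Finset.mem_univ i) ?_
        rw [hb, up_eq_zero h]
        simp
      · left
        refine Finset.prod_eq_zero (Finset.mem_univ i) ?_
        rw [ha, dn_eq_zero h]
        simp
    cases ha : a i <;> cases hb : b i
    · rw [ha, hb] at hi
      exact absurd rfl hi
    · exact (key b a hb ha).symm
    · exact key a b ha hb
    · rw [ha, hb] at hi
      exact absurd rfl hi

theorem bq_eq {X : Type*} [MetricSpace X] {n : ℕ} (z : Fin n → X) (κ ω : ℝ) (x : X) :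
    bq z κ ω (fun i => decide (dist x (z i) < κ)) x = ∏ i, min 1 (|dist x (z i) - κ| / ω) := by
  unfold bq
  refine Finset.prod_congr rfl (fun i _ => ?_)
  by_cases h : dist x (z i) < κ
  · simp only [h, decide_true, if_true]
    rw [dn_eq h.le]
  · simp only [h, decide_false, Bool.false_eq_true, if_false]
    rw [up_eq (not_lt.1 h)]

theorem bq_pos {X : Type*} [MetricSpace X] {n : ℕ} {z : Fin n → X} {κ ω : ℝ} (hω : 0 < ω)
    {a : Fin n → Bool} {x : X} (h : 0 < bq z κ ω a x) (i : Fin n) :
    (a i = true → dist x (z i) < κ) ∧ (a i = false → κ < dist x (z i)) := by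
  constructor
  · intro ha
    by_contra hcon
    refine h.ne' (Finset.prod_eq_zero (Finset.mem_univ i) ?_)
    rw [ha, dn_eq_zero (not_lt.1 hcon)]
    simp
  · intro ha
    by_contra hcon
    refine h.ne' (Finset.prod_eq_zero (Finset.mem_univ i) ?_)
    rw [ha, up_eq_zero (not_lt.1 hcon)]
    simp

theorem base1 (gTH : TH.{u, 0}) (gFREQ : FREQ.{u}) : BASE1.{u} := by
  classical
  intro X _ _ _ F hF δ h ε hδ hε hE
  obtain ⟨x₀⟩ := ‹Nonempty X›
  haveI : Nonempty X := ⟨x₀⟩
  -- the centres
  obtain ⟨s, -, hs⟩ := (isCompact_univ (X := X)).elim_nhds_subcover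
    (fun x => Metric.ball x (δ / 4)) (fun x _ => Metric.ball_mem_nhds x (by positivity))
  have hcov : ∀ y : X, ∃ x ∈ s, dist y x < δ / 4 := by
    intro y
    have := hs (mem_univ y)
    simpa using this
  set n := s.card with hn
  let z : Fin n → X := fun i => (s.equivFin.symm i : X)
  have hz : ∀ y : X, ∃ i, dist y (z i) < δ / 4 := by
    intro y
    obtain ⟨x, hx, hxy⟩ := hcov y
    exact ⟨s.equivFin ⟨x, hx⟩, by simpa [z] using hxy⟩
  -- the separated sets
  have hE' : ∀ g : ℕ, ∃ E : Finset X, E.Nonempty ∧ (0 < g →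
      (∀ x ∈ E, ∀ y ∈ E, x ≠ y → ∃ t < g, δ < dist (F^[t] x) (F^[t] y)) ∧
      Real.exp (h * g) ≤ E.card) := by
    intro g
    rcases Nat.eq_zero_or_pos g with h0 | h0
    · exact ⟨{x₀}, Finset.singleton_nonempty _, fun h1 => absurd h1 (by omega)⟩
    · obtain ⟨E, h1, h2⟩ := hE g h0
      refine ⟨E, ?_, fun _ => ⟨h1, h2⟩⟩
      rw [← Finset.card_pos]
      have h3 : (0 : ℝ) < E.card := (Real.exp_pos _).trans_le h2
      exact_mod_cast h3
  choose E hEne hEs using hE'
  obtain ⟨κ, hκ, ω, hω, hfr⟩ := gTH (fun g => ↥(E g)) (fun g => Fin g × Fin n) n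
    (fun g => by simp [mul_comm]) (fun g _ => 1) (fun g _ => zero_le_one)
    (fun g => by
      have h1 : 0 < (E g).card := Finset.card_pos.2 (hEne g)
      simp only [Finset.sum_const, Finset.card_univ, Fintype.card_coe, nsmul_eq_mul, mul_one]
      exact_mod_cast h1)
    (fun g y l => dist (F^[l.1] (y : X)) (z l.2)) (δ / 4) (δ / 2) ε (by linarith) hε
  have hcod := bq_coding z κ hω
  have hsupp : ∀ (a : Fin n → Bool) (x y : X), 0 < bq z κ ω a x → 0 < bq z κ ω a y →
      dist x y ≤ δ := by
    intro a x y hx hy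
    obtain ⟨i, hi⟩ := hz x
    have h1 : a i = true := by
      by_contra hcon
      have h2 := (bq_pos hω hx i).2 (by simpa using hcon)
      linarith [hκ.1]
    have h2 := (bq_pos hω hy i).1 h1
    have h3 := dist_triangle x (z i) y
    rw [dist_comm (z i) y] at h3
    linarith [hκ.2]
  refine ⟨Fin n → Bool, inferInstance, bq z κ ω, hcod, hsupp, ?_⟩
  refine (gFREQ X (Fin n → Bool) F (bq z κ ω) hcod).1 (h - ε) ?_
  refine (hfr.and_eventually (eventually_gt_atTop 0)).mono ?_
  rintro g ⟨hg, hg0⟩
  obtain ⟨hsep, hcard⟩ := hEs g hg0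
  simp only [Finset.sum_const, Finset.card_univ, Fintype.card_coe, nsmul_eq_mul, mul_one,
    one_mul] at hg
  have h1 : Real.exp ((h - ε) * g) ≤ Real.exp (-(ε * g)) * (E g).card := by
    calc Real.exp ((h - ε) * g) = Real.exp (-(ε * g)) * Real.exp (h * g) := by
          rw [← Real.exp_add]
          congr 1
          ring
      _ ≤ _ := mul_le_mul_of_nonneg_left hcard (Real.exp_pos _).le
  refine (h1.trans hg).trans ?_
  -- words
  let W : ↥(E g) → (Fin g → (Fin n → Bool)) := fun y s i => decide (dist (F^[s] (y : X)) (z i) < κ)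
  have hW : ∀ y : ↥(E g), ∏ l : Fin g × Fin n, min 1 (|dist (F^[l.1] (y : X)) (z l.2) - κ| / ω) =
      qw F (bq z κ ω) g (W y) y := by
    intro y
    rw [Fintype.prod_prod_type]
    unfold qw
    refine Finset.prod_congr rfl (fun s _ => ?_)
    exact (bq_eq z κ ω (F^[s] (y : X))).symm
  have hinj : ∀ y y' : ↥(E g), 0 < qw F (bq z κ ω) g (W y) y →
      0 < qw F (bq z κ ω) g (W y') y' → W y = W y' → y = y' := by
    intro y y' hy hy' hw
    by_contra hne
    obtain ⟨t, ht, hlt⟩ := hsep y y.2 y' y'.2 (fun h => hne (Subtype.ext h))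
    have h2 := hcod.pos_of_qw_pos hy ⟨t, ht⟩
    have h3 := hcod.pos_of_qw_pos hy' ⟨t, ht⟩
    rw [← hw] at h3
    exact absurd (hsupp _ _ _ h2 h3) (not_le.2 hlt)
  set P : Finset ↥(E g) := Finset.univ.filter (fun y => 0 < qw F (bq z κ ω) g (W y) y) with hP
  calc ∑ y : ↥(E g), ∏ l : Fin g × Fin n, min 1 (|dist (F^[l.1] (y : X)) (z l.2) - κ| / ω)
      = ∑ y : ↥(E g), qw F (bq z κ ω) g (W y) y := Finset.sum_congr rfl (fun y _ => hW y)
    _ = ∑ y ∈ P, qw F (bq z κ ω) g (W y) y := by
        rw [hP, Finset.sum_filter]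
        refine Finset.sum_congr rfl (fun y _ => ?_)
        split_ifs with h2
        · rfl
        · exact le_antisymm (not_lt.1 h2) (hcod.qw_nonneg _ _ _)
    _ ≤ ∑ y ∈ P, top F (bq z κ ω) g (W y) univ :=
        Finset.sum_le_sum (fun y _ => hcod.le_top (mem_univ _))
    _ = ∑ w ∈ P.image W, top F (bq z κ ω) g w univ := by
        rw [Finset.sum_image]
        intro y hy y' hy' hw
        rw [hP, Finset.coe_filter] at hy hy'
        exact hinj y y' hy.2 hy'.2 hw
    _ ≤ cap F (bq z κ ω) g univ :=
        Finset.sum_le_sum_of_subset_of_nonneg (Finset.subset_univ _)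
          (fun w _ _ => hcod.top_nonneg _ _ _)

end Pool.Agent.Helper48.WeissJ
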