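import Pool.Agent.Helper48.WeissJ.Goals

set_option linter.unusedVariables false

open Set Filter Topology

namespace Pool.Agent.Helper48.WeissJ

universe u

theorem base2 : BASE2.{u} := by
  classical
  intro X _ _ Λ _ F q hq
  set η : ℝ := 1 / (2 * (Fintype.card Λ + 1)) with hη
  have hc0 : (0 : ℝ) ≤ Fintype.card Λ := Nat.cast_nonneg _
  have hη0 : 0 < η := by positivity
  -- uniform continuity
  have huc : ∃ ρ > 0, ∀ x y : X, dist x y < ρ → ∀ a, |q a x - q a y| < η := by
    have h1 : ∀ a, ∃ ρ > 0, ∀ x y : X, dist x y < ρ → |q a x - q a y| < η := by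
      intro a
      obtain ⟨ρ, hρ, h⟩ := Metric.uniformContinuous_iff.1
        (CompactSpace.uniformContinuous_of_continuous (hq.cont a)) η hη0
      exact ⟨ρ, hρ, fun x y hxy => by
        have := h hxy
        rwa [Real.dist_eq] at this⟩
    choose ρ hρ h using h1
    rcases isEmpty_or_nonempty Λ with hΛ | hΛ
    · exact ⟨1, one_pos, fun x y _ a => (hΛ.false a).elim⟩
    · refine ⟨Finset.univ.inf' Finset.univ_nonempty ρ, ?_, fun x y hxy a => ?_⟩
      · rw [gt_iff_lt, Finset.lt_inf'_iff]
        exact fun a _ => hρ a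
      · exact h a x y (hxy.trans_le (Finset.inf'_le _ (Finset.mem_univ a)))
  obtain ⟨ρ, hρ, huc⟩ := huc
  refine ⟨ρ, hρ, 1, ?_⟩
  have hball : ∀ x : X, cap F q 1 {y | dist x y < ρ} ≤ 1 := by
    intro x
    have hqw : ∀ (w : Fin 1 → Λ) (y : X), qw F q 1 w y = q (w 0) y := by
      intro w y
      simp [qw]
    by_cases hbig : ∃ a, η ≤ q a x
    · obtain ⟨a, ha⟩ := hbig
      have h1 : ∀ w : Fin 1 → Λ, w ≠ (fun _ => a) → top F q 1 w {y | dist x y < ρ} ≤ 0 := by
        intro w hw
        refine top_le le_rfl (fun y hy => ?_)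
        rw [hqw]
        have h2 : 0 < q a y := by
          have := huc x y hy a
          rw [abs_lt] at this
          linarith [this.2]
        have h3 : w 0 ≠ a := fun h => hw (funext (fun i => by rw [Subsingleton.elim i 0, h]))
        rcases hq.disj (w 0) a y h3 with h4 | h4
        · exact h4.le
        · exact absurd h4 h2.ne'
      unfold cap
      calc ∑ w : Fin 1 → Λ, top F q 1 w {y | dist x y < ρ}
          ≤ ∑ w : Fin 1 → Λ, (if w = (fun _ => a) then (1 : ℝ) else 0) := by
            refine Finset.sum_le_sum (fun w _ => ?_)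
            split_ifs with h
            · exact hq.top_le_one _ _ _
            · exact h1 w h
        _ = 1 := by simp
    · push Not at hbig
      have h1 : ∀ w : Fin 1 → Λ, top F q 1 w {y | dist x y < ρ} ≤ 2 * η := by
        intro w
        refine top_le (by positivity) (fun y hy => ?_)
        rw [hqw]
        have h2 := huc x y hy (w 0)
        have h3 := hbig (w 0)
        rw [abs_lt] at h2
        linarith [h2.1]
      unfold cap
      calc ∑ w : Fin 1 → Λ, top F q 1 w {y | dist x y < ρ}
          ≤ ∑ _w : Fin 1 → Λ, 2 * η := Finset.sum_le_sum (fun w _ => h1 w)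
        _ = Fintype.card Λ * (2 * η) := by simp
        _ ≤ 1 := by
          rw [hη]
          have : (Fintype.card Λ : ℝ) * (2 * (1 / (2 * (Fintype.card Λ + 1)))) =
              Fintype.card Λ / (Fintype.card Λ + 1) := by
            field_simp
          rw [this, div_le_one (by positivity)]
          linarith
  intro g
  induction g with
  | zero =>
    intro x
    simpa using cap_zero_le F q _
  | succ g ih =>
    intro x
    have h1 : cap F q (g + 1) (star F {z : X × X | dist z.1 z.2 < ρ} (g + 1) x) ≤
        cap F q g (star F {z : X × X | dist z.1 z.2 < ρ} (g + 1) x) *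
          cap F q 1 {y | dist (F^[g] x) y < ρ} :=
      hq.cap_add_le (fun y hy => hy g (Nat.lt_succ_self g))
    have h2 : cap F q g (star F {z : X × X | dist z.1 z.2 < ρ} (g + 1) x) ≤
        cap F q g (star F {z : X × X | dist z.1 z.2 < ρ} g x) :=
      hq.cap_mono (fun y hy s hs => hy s (hs.trans (Nat.lt_succ_self g)))
    have h3 := ih x
    have h4 := hball (F^[g] x)
    have h5 := hq.cap_nonneg (F := F) 1 {y | dist (F^[g] x) y < ρ}
    have h6 := hq.cap_nonneg (F := F) g (star F {z : X × X | dist z.1 z.2 < ρ} (g + 1) x)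
    simp only [zero_mul, Real.exp_zero, mul_one] at h3 ⊢
    nlinarith

end Pool.Agent.Helper48.WeissJ
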