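import Pool.Agent.Helper48.WeissJ.Goals
import Pool.Agent.Helper50.Weiss.Cover

set_option linter.unusedVariables false

open Set Filter Topology

namespace Pool.Agent.Helper48.WeissJ

open Pool.Agent.Helper38.Weiss (Sym covR covN)

universe u

theorem base3 : BASE3.{u} := by
  classical
  intro X _ _ _ Λ _ F hF q hq r κ hr hκ hsupp
  obtain ⟨T₀, hT₀⟩ := Pool.Agent.Helper50.Weiss.covN_le F hF r hr κ hκ
  obtain ⟨N, φ, hφ, hN⟩ := hT₀ (max T₀ 1) (le_max_left _ _)
  obtain ⟨x₀⟩ := ‹Nonempty X›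
  set T := max T₀ 1 with hT
  have hT1 : 0 < T := lt_of_lt_of_le one_pos (le_max_right _ _)
  let pt : (Fin (T + 0) → Λ) → X := fun w =>
    if h : ∃ x, 0 < qw F q (T + 0) w x then h.choose else x₀
  have hpt : ∀ (w : Fin (T + 0) → Λ) (x : X), 0 < qw F q (T + 0) w x → ∀ s < T,
      dist (F^[s] x) (F^[s] (pt w)) ≤ r / 4 := by
    intro w x hx s hs
    have hex : ∃ x, 0 < qw F q (T + 0) w x := ⟨x, hx⟩
    have h1 : 0 < qw F q (T + 0) w (pt w) := by
      simp only [pt, dif_pos hex]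
      exact hex.choose_spec
    have h2 := hq.pos_of_qw_pos hx ⟨s, by omega⟩
    have h3 := hq.pos_of_qw_pos h1 ⟨s, by omega⟩
    exact hsupp _ _ _ h2 h3
  refine ⟨T, 0, N, fun w => φ (pt w), φ, hT1, ?_, ?_, ?_⟩
  · rw [mul_comm]
    exact hN
  · intro x y hxy s hs
    have := hφ x y hxy s hs
    show dist (F^[s] x) (F^[s] y) ≤ 3 / 2 * r
    linarith
  · intro w w' x y hx hy hw s hs
    have h1 := hpt w x hx s hs
    have h2 := hpt w' y hy s hs
    have h3 := hφ _ _ hw s hs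
    have h4 := dist_triangle4 (F^[s] x) (F^[s] (pt w)) (F^[s] (pt w')) (F^[s] y)
    rw [dist_comm (F^[s] (pt w'))] at h4
    show dist (F^[s] x) (F^[s] y) ≤ 3 / 2 * r
    linarith

end Pool.Agent.Helper48.WeissJ
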