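import Pool.Agent.Helper38.Weiss.Defs
import Pool.Agent.Helper42.Weiss.Basic

/-!
MP_6b0aee_an (Weiss), joint version (separated and spanning sets): working definitions.

A coding is a finite family of continuous functions `q a : X → [0,1]` with disjoint supports.
`qw F q g w x` is the weight of the word `w` of length `g` at `x`, and `cap F q g Y` is the sum over
all words of length `g` of the largest weight on `Y`.
-/

open Set Filter Topology

namespace Pool.Agent.Helper48.WeissJ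

open Pool.Agent.Helper38.Weiss (Conf Sym)

section Basic

variable {X : Type*} {Λ : Type*}

/-- Continuous functions with values in `[0,1]` and disjoint supports. -/
structure IsCoding [TopologicalSpace X] (q : Λ → X → ℝ) : Prop where
  cont : ∀ a, Continuous (q a)
  nonneg : ∀ a x, 0 ≤ q a x
  le_one : ∀ a x, q a x ≤ 1
  disj : ∀ a b x, a ≠ b → q a x = 0 ∨ q b x = 0

/-- The weight of the word `w` at the point `x`. -/
def qw (F : X → X) (q : Λ → X → ℝ) (g : ℕ) (w : Fin g → Λ) (x : X) : ℝ :=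
  ∏ s : Fin g, q (w s) (F^[s] x)

/-- The largest weight of the word `w` on `Y`. -/
noncomputable def top (F : X → X) (q : Λ → X → ℝ) (g : ℕ) (w : Fin g → Λ) (Y : Set X) : ℝ :=
  sSup (qw F q g w '' Y)

/-- The capacity of `Y`. -/
noncomputable def cap [Fintype Λ] (F : X → X) (q : Λ → X → ℝ) (g : ℕ) (Y : Set X) : ℝ :=
  ∑ w : Fin g → Λ, top F q g w Y

/-- The total weight of the words of length `g` at `x`. -/
noncomputable def tot [Fintype Λ] (F : X → X) (q : Λ → X → ℝ) (g : ℕ) (x : X) : ℝ :=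
  ∏ s : Fin g, ∑ a, q a (F^[s] x)

/-- The points whose orbit is `D`-close to the orbit of `x` on `[0,g)`. -/
def star (F : X → X) (D : Set (X × X)) (g : ℕ) (x : X) : Set X :=
  {y | ∀ s < g, (F^[s] x, F^[s] y) ∈ D}

/-- Lower bound for the capacity of `X`. -/
def PB [Fintype Λ] (F : X → X) (q : Λ → X → ℝ) (p : ℝ) : Prop :=
  ∀ g : ℕ, Real.exp (p * g) ≤ cap F q g univ

/-- Upper bound for the capacity of the stars. -/
def SB [Fintype Λ] (F : X → X) (q : Λ → X → ℝ) (D : Set (X × X)) (β : ℝ) : Prop :=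
  ∃ C : ℝ, ∀ (g : ℕ) (x : X), cap F q g (star F D g x) ≤ C * Real.exp (β * g)

/-- Few names. -/
def NB (F : X → X) (q : Λ → X → ℝ) (R : Set (X × X)) (γ : ℝ) : Prop :=
  ∃ (T L N : ℕ) (ν : (Fin (T + L) → Λ) → Fin N) (c : X → Fin N), 0 < T ∧
    (N : ℝ) ≤ Real.exp (γ * T) ∧
    (∀ x y, c x = c y → ∀ s < T, (F^[s] x, F^[s] y) ∈ R) ∧
    ∀ (w w' : Fin (T + L) → Λ) (x y : X), 0 < qw F q (T + L) w x → 0 < qw F q (T + L) w' y →
      ν w = ν w' → ∀ s < T, (F^[s] x, F^[s] y) ∈ R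

/-- Cutoff above `κ`. -/
noncomputable def up (κ ω t : ℝ) : ℝ := min 1 (max 0 (t - κ) / ω)

/-- Cutoff below `κ`. -/
noncomputable def dn (κ ω t : ℝ) : ℝ := min 1 (max 0 (κ - t) / ω)

/-- The coding refined by `above κ` and `below κ`. -/
noncomputable def refi (q : Λ → X → ℝ) (v : X → ℝ) (κ ω : ℝ) : Λ × Bool → X → ℝ :=
  fun a x => q a.1 x * (if a.2 then up κ ω (v x) else dn κ ω (v x))

/-- The basic relation, closed form. -/
def Sh₀ [Fintype Λ] (F : X → X) (q : Λ → X → ℝ) (L : ℕ) {ι : Type*} (bin : (Fin L → Λ) → ι)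
    (κ : ℝ) : Set (X × X) :=
  {z | (∃ w w' : Fin L → Λ, bin w = bin w' ∧ κ ≤ qw F q L w z.1 ∧ κ ≤ qw F q L w' z.2) ∨
    (tot F q L z.1 ≤ κ ∧ tot F q L z.2 ≤ κ)}

/-- The basic relation, open form. -/
def Sh₁ [Fintype Λ] (F : X → X) (q : Λ → X → ℝ) (L : ℕ) {ι : Type*} (bin : (Fin L → Λ) → ι)
    (b : ℝ) : Set (X × X) :=
  {z | (∃ w w' : Fin L → Λ, bin w = bin w' ∧ 0 < qw F q L w z.1 ∧ 0 < qw F q L w' z.2) ∨
    (tot F q L z.1 < b ∧ tot F q L z.2 < b)}

/-- The names of the sub-blocks of a long word. -/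
def cl {T L N n : ℕ} (ν : (Fin (T + L) → Λ) → Fin N) (w : Fin (n * T + L) → Λ) (k : Fin n) :
    Fin N :=
  ν (fun s => w ⟨k * T + s, by
    have h := Nat.mul_le_mul_right T (Nat.succ_le_of_lt k.2)
    rw [Nat.succ_mul] at h
    have := s.2
    omega⟩)

/-- `Sh` holds at `m` consecutive multiples of `T`, with a phase `u < T`. -/
def Chn (F : X → X) (T m : ℕ) (Sh : Set (X × X)) : Set (X × X) :=
  {z | ∃ u < T, ∀ k < m, (F^[u + k * T] z.1, F^[u + k * T] z.2) ∈ Sh}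

end Basic

/-- The relation between thresholds. -/
def Link {X : Type*} [TopologicalSpace X] (F : X → X) (C U : Set (X × X)) : Prop :=
  Sym C ∧ Sym U ∧ ∃ (Λ : Type) (_ : Fintype Λ) (q : Λ → X → ℝ) (p β γ : ℝ) (D R : Set (X × X)),
    IsCoding q ∧ PB F q p ∧ 0 ≤ β ∧ β + γ < p ∧ IsOpen D ∧ Sym D ∧ Uᶜ ⊆ D ∧ SB F q D β ∧
    IsClosed R ∧ Sym R ∧ R ⊆ Cᶜ ∧ NB F q R γ

/-- Conflicts `C` are separated at most at the rate `c`, and `c` is at most the rate at which one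
spans up to conflicts `U`. -/
def CmpJ {X : Type*} (F : X → X) (C U : Set (X × X)) : Prop :=
  ∃ c : ℝ, ∀ η > 0, ∃ N : ℕ, ∀ T ≥ N,
    (∀ E : Finset X, E.Nonempty → (∀ x ∈ E, ∀ y ∈ E, x ≠ y → Conf F C T x y) →
      Real.log E.card ≤ (c + η) * T) ∧
    (∀ S : Finset X, S.Nonempty → (∀ x, ∃ y ∈ S, ¬ Conf F U T x y) →
      (c - η) * T ≤ Real.log S.card)

/-- `span(ε, D_T)`: the smallest cardinality of an `(ε, D_T)`-spanning set. -/
noncomputable def spanNum {X : Type*} (D : X → X → ℝ) (F : X → X) (ε : ℝ) (T : ℕ) : ℕ :=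
  sInf {n : ℕ | ∃ S : Finset X, S.card = n ∧
    ∀ x, ∃ y ∈ S, Pool.Agent.Helper42.Weiss.dynDist D F T x y ≤ ε}

/-- Both limits exist and agree. -/
def HasJointRate {X : Type*} (D : X → X → ℝ) (F : X → X) (ε : ℝ) : Prop :=
  ∃ h : ℝ, Tendsto (fun T : ℕ => Real.log (Pool.Agent.Helper42.Weiss.sepNum D F ε T) / T) atTop
      (𝓝 h) ∧
    Tendsto (fun T : ℕ => Real.log (spanNum D F ε T) / T) atTop (𝓝 h)

end Pool.Agent.Helper48.WeissJ
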