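import Pool.Agent.Helper48.WeissJ.Ins
import Pool.Agent.Helper38.Weiss.Fin2
import Pool.Agent.Helper50.Weiss.Cover

/-! Final assembly of the joint theorem. -/

set_option linter.unusedVariables false

open Set Filter Topology

namespace Pool.Agent.Helper48.WeissJ

open Pool.Agent.Helper38.Weiss (Conf Sym covN covR exists_mod equiv_of exists_level)
open Pool.Agent.Helper42.Weiss (IsEquivMetric sepNum dynDist IsSep exists_sepNum le_sepNum
  one_le_sepNum sepNum_le_pow)
open Pool.Agent.Helper97.Weiss (exists_threshold)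

universe u

theorem CmpJ.mono {X : Type*} {F : X → X} {C C' U U' : Set (X × X)} (h : CmpJ F C' U')
    (hC : C ⊆ C') (hU : U' ⊆ U) : CmpJ F C U := by
  obtain ⟨c, hc⟩ := h
  refine ⟨c, fun η hη => ?_⟩
  obtain ⟨N, hN⟩ := hc η hη
  refine ⟨N, fun T hT => ⟨fun E hE hE' => (hN T hT).1 E hE (fun x hx y hy hne => ?_),
    fun S hS hS' => (hN T hT).2 S hS (fun x => ?_)⟩⟩
  · obtain ⟨t, ht, h⟩ := hE' x hx y hy hne
    exact ⟨t, ht, hC h⟩
  · obtain ⟨y, hy, h⟩ := hS' x
    exact ⟨y, hy, fun ⟨t, ht, h'⟩ => h ⟨t, ht, hU h'⟩⟩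

/-- The base link. -/
theorem baseJ {X : Type u} [MetricSpace X] [CompactSpace X] [Nonempty X]
    (gB1 : BASE1.{u}) (gB2 : BASE2.{u}) (gB3 : BASE3.{u})
    (F : X → X) (hF : Continuous F) (r ε₁ : ℝ) (hr : 0 < r) (hε₁ : 0 < ε₁)
    (hlt : covR F r < covR F ε₁) :
    ∃ ρ > 0, ρ ≤ r ∧ Link F {z : X × X | 2 * r ≤ dist z.1 z.2} {z : X × X | ρ < dist z.1 z.2} := by
  set η : ℝ := (covR F ε₁ - covR F r) / 3 with hη
  have hηpos : 0 < η := by
    rw [hη]
    have : 0 < covR F ε₁ - covR F r := by linarith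
    positivity
  have hδ : 0 < min (ε₁ / 2) (r / 4) := lt_min (by positivity) (by positivity)
  obtain ⟨Λ, inst, q, hq, hsupp, hPB⟩ := gB1 X F hF (min (ε₁ / 2) (r / 4)) (covR F ε₁) η hδ hηpos
    (by
      intro g hg
      obtain ⟨E, hE, hcard⟩ := Pool.Agent.Helper50.Weiss.sep_ge F hF ε₁ hε₁ g hg
      refine ⟨E, fun x hx y hy hne => ?_, hcard⟩
      obtain ⟨t, ht, h⟩ := hE x hx y hy hne
      exact ⟨t, ht, (min_le_left _ _).trans_lt h⟩)
  obtain ⟨ρ', hρ', hSB⟩ := gB2 X Λ F q hq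
  have hNB := gB3 X Λ F hF q hq r η hr hηpos (fun a x y hx hy =>
    (hsupp a x y hx hy).trans (min_le_right _ _))
  have hcd : Continuous (fun z : X × X => dist z.1 z.2) := continuous_fst.dist continuous_snd
  refine ⟨min (ρ' / 2) r, lt_min (by positivity) hr, min_le_right _ _, ?_, ?_, Λ, inst, q,
    covR F ε₁ - η, 0, covR F r + η, {z : X × X | dist z.1 z.2 < ρ'},
    {z : X × X | dist z.1 z.2 ≤ 3 / 2 * r}, hq, hPB, le_rfl, ?_, isOpen_lt hcd continuous_const,
    ?_, ?_, hSB, isClosed_le hcd continuous_const, ?_, ?_, hNB⟩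
  · intro x y hxy
    have h1 : 2 * r ≤ dist x y := hxy
    show 2 * r ≤ dist y x
    rwa [dist_comm]
  · intro x y hxy
    have h1 : min (ρ' / 2) r < dist x y := hxy
    show min (ρ' / 2) r < dist y x
    rwa [dist_comm]
  · rw [hη]
    linarith
  · intro x y hxy
    have h1 : dist x y < ρ' := hxy
    show dist y x < ρ'
    rwa [dist_comm]
  · intro z hz
    have h1 : dist z.1 z.2 ≤ min (ρ' / 2) r := not_lt.1 hz
    have h2 := min_le_left (ρ' / 2) r
    show dist z.1 z.2 < ρ'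
    linarith
  · intro x y hxy
    have h1 : dist x y ≤ 3 / 2 * r := hxy
    show dist y x ≤ 3 / 2 * r
    rwa [dist_comm]
  · intro z hz hz'
    have h1 : dist z.1 z.2 ≤ 3 / 2 * r := hz
    have h2 : 2 * r ≤ dist z.1 z.2 := hz'
    linarith

/-- One window of thresholds. -/
structure IsWinJ {X : Type*} [MetricSpace X] (F : X → X) (r δ ρ : ℝ) (f : X → X → ℝ) : Prop where
  ρ_pos : 0 < ρ
  le_r : δ ≤ r
  cont : Continuous (fun z : X × X => f z.1 z.2)
  nonneg : ∀ x y, 0 ≤ f x y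
  le_one : ∀ x y, f x y ≤ 1
  symm : ∀ x y, f x y = f y x
  far : ∀ x y, δ ≤ dist x y → f x y = 1
  near : ∀ x y, dist x y < ρ → f x y = 0
  cmp : ∀ s t, 0 < s → s < t → t < 1 → CmpJ F {z | t < f z.1 z.2} {z | s < f z.1 z.2}

theorem exists_winJ {X : Type u} [MetricSpace X] [CompactSpace X] [Nonempty X]
    (gCMP : CMP.{u})
    (gbase : ∀ (F : X → X), Continuous F → ∀ (r ε₁ : ℝ), 0 < r → 0 < ε₁ →
      covR F r < covR F ε₁ →
      ∃ ρ > 0, ρ ≤ r ∧ Link F {z : X × X | 2 * r ≤ dist z.1 z.2} {z : X × X | ρ < dist z.1 z.2})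
    (gins : ∀ (F : X → X), Continuous F → ∀ {C U : Set (X × X)}, IsClosed C → IsOpen U → C ⊆ U →
      Link F C U → ∃ v : Set (X × X), IsOpen v ∧ C ⊆ v ∧ closure v ⊆ U ∧ Link F C v ∧
        Link F (closure v) U)
    (F : X → X)
    (hFc : Continuous F) (hnp : ∀ ε₀ > 0, ∃ ε > 0, covR F ε₀ < covR F ε) {r : ℝ} (hr : 0 < r) :
    ∃ (δ ρ : ℝ) (f : X → X → ℝ), IsWinJ F r δ ρ f := by
  obtain ⟨ε, hε, hlt⟩ := hnp (r / 2) (by positivity)
  obtain ⟨ρ, hρ, hρr, hLk⟩ := gbase F hFc (r / 2) ε (by positivity) hε hlt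
  have hcd : Continuous (fun z : X × X => dist z.1 z.2) := continuous_fst.dist continuous_snd
  obtain ⟨f, hfc, hf0, hf1, hfC, hfU, hth⟩ := exists_threshold (Link F)
    (fun {c u} hc hcu hu hs => gins F hFc hc hu hs hcu)
    (C := {z : X × X | 2 * (r / 2) ≤ dist z.1 z.2}) (U := {z : X × X | ρ < dist z.1 z.2})
    (isClosed_le continuous_const hcd) (isOpen_lt continuous_const hcd)
    (fun z hz => lt_of_lt_of_le (by linarith) (show 2 * (r / 2) ≤ dist z.1 z.2 from hz)) hLk
  -- symmetry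
  have hsym1 : ∀ x y, f (y, x) ≤ f (x, y) := by
    intro x y
    rcases (hf1 (x, y)).lt_or_eq with h1 | h1
    · refine le_of_forall_gt_imp_ge_of_dense (fun t ht => ?_)
      rcases lt_or_ge t 1 with ht1 | ht1
      · obtain ⟨s, hs1, hs2⟩ := exists_between ht
        obtain ⟨C', U', -, -, hR, h2, h3, h4⟩ := hth s t ((hf0 (x, y)).trans_lt hs1) hs2 ht1
        have h5 : (x, y) ∈ C' := h2 hs1
        exact h4 (h3 (hR.1 x y h5))
      · exact (hf1 _).trans ht1
    · rw [h1]
      exact hf1 _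
  refine ⟨2 * (r / 2), ρ, fun x y => 1 - f (x, y), hρ, by linarith, continuous_const.sub hfc,
    fun x y => by linarith [hf1 (x, y)], fun x y => by linarith [hf0 (x, y)],
    fun x y => by rw [le_antisymm (hsym1 x y) (hsym1 y x)], ?_, ?_, ?_⟩
  · intro x y hxy
    rw [hfC (x, y) hxy, sub_zero]
  · intro x y hxy
    rw [hfU (x, y) (fun h => absurd hxy (not_lt.2 (le_of_lt h))), sub_self]
  · intro s t hs hst ht
    obtain ⟨C', U', -, hU'o, hR, h2, h3, h4⟩ := hth (1 - t) ((1 - t + (1 - s)) / 2)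
      (by linarith) (by linarith) (by linarith)
    have hcmp : CmpJ F C' U' := gCMP X F C' U' hR
    refine hcmp.mono ?_ ?_
    · intro z hz
      refine h2 ?_
      have : t < 1 - f (z.1, z.2) := hz
      show f z < 1 - t
      have h5 : f z = f (z.1, z.2) := rfl
      linarith
    · intro z hz
      have h5 : f z ≤ (1 - t + (1 - s)) / 2 := h4 hz
      show s < 1 - f (z.1, z.2)
      have h6 : f z = f (z.1, z.2) := rfl
      linarith

theorem exists_towerJ {X : Type u} [MetricSpace X] [CompactSpace X] [Nonempty X] (F : X → X)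
    (gwin : ∀ r : ℝ, 0 < r → ∃ (δ ρ : ℝ) (f : X → X → ℝ), IsWinJ F r δ ρ f) :
    ∃ (f : ℕ → X → X → ℝ) (δ η : ℕ → ℝ), Pool.Agent.Helper23.Weiss.IsTower f δ η ∧
      ∀ k, ∀ s t, 0 < s → s < t → t < 1 →
        CmpJ F {z | t < f k z.1 z.2} {z | s < f k z.1 z.2} := by
  classical
  choose δ' ρ' f' hw using fun (p : {d : ℝ // 0 < d}) => gwin p.1 p.2
  choose md hmd0 hmd using fun (p : {d : ℝ // 0 < d}) (c : {d : ℝ // 0 < d}) =>
    exists_mod (hw p).cont c.2
  set c₀ : ℕ → {d : ℝ // 0 < d} := fun k => ⟨(1 / 2) ^ (k + 2), by positivity⟩ with hc₀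
  set step : ℕ → {d : ℝ // 0 < d} × ({d : ℝ // 0 < d} → {d : ℝ // 0 < d}) →
      {d : ℝ // 0 < d} × ({d : ℝ // 0 < d} → {d : ℝ // 0 < d}) := fun k s =>
    (⟨min (min (ρ' s.1 / 2) ((1 / 2) ^ (k + 2))) (min (s.2 (c₀ k) : ℝ) (md s.1 (c₀ k))),
      lt_min (lt_min (half_pos (hw _).ρ_pos) (by positivity))
        (lt_min (s.2 (c₀ k)).2 (hmd0 _ _))⟩,
      fun c => ⟨min (s.2 c : ℝ) (md s.1 c), lt_min (s.2 c).2 (hmd0 _ _)⟩) with hstep
  set st : ℕ → {d : ℝ // 0 < d} × ({d : ℝ // 0 < d} → {d : ℝ // 0 < d}) :=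
    fun n => Nat.rec (⟨1, one_pos⟩, fun _ => ⟨1, one_pos⟩) (fun k s => step k s) n with hst
  have hst_succ : ∀ k, st (k + 1) = step k (st k) := fun k => rfl
  have h1 : ∀ k, ((st (k + 1)).1 : ℝ) ≤ ρ' (st k).1 / 2 := by
    intro k
    rw [hst_succ]
    exact (min_le_left _ _).trans (min_le_left _ _)
  have h2 : ∀ k, ((st (k + 1)).1 : ℝ) ≤ (1 / 2) ^ (k + 2) := by
    intro k
    rw [hst_succ]
    exact (min_le_left _ _).trans (min_le_right _ _)
  have h3 : ∀ k, ((st (k + 1)).1 : ℝ) ≤ (st (k + 1)).2 (c₀ k) := by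
    intro k
    rw [hst_succ]
    exact min_le_right _ _
  have h4 : ∀ k c, ((st (k + 1)).2 c : ℝ) ≤ (st k).2 c := by
    intro k c
    rw [hst_succ]
    exact min_le_left _ _
  have h5 : ∀ k c, ((st (k + 1)).2 c : ℝ) ≤ md (st k).1 c := by
    intro k c
    rw [hst_succ]
    exact min_le_right _ _
  have h6 : ∀ j k c, j ≤ k → ((st (k + 1)).2 c : ℝ) ≤ md (st j).1 c := by
    intro j k c hjk
    induction k, hjk using Nat.le_induction with
    | base => exact h5 j c
    | succ k _ ih => exact (h4 (k + 1) c).trans ih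
  refine ⟨fun k => f' (st k).1, fun k => δ' (st k).1, fun k => ρ' (st k).1, ?_,
    fun k => (hw (st k).1).cmp⟩
  refine ⟨fun k => (hw _).nonneg, fun k => (hw _).le_one, fun k => (hw _).symm,
    fun k => (hw _).far, fun k => (hw _).near, fun k => (hw _).ρ_pos, ?_, ?_, ?_⟩
  · intro k
    have := h1 k
    have := (hw (st (k + 1)).1).le_r
    linarith
  · intro k
    exact (hw (st (k + 1)).1).le_r.trans (h2 k)
  · intro k j hj x y z hyz
    refine hmd (st j).1 (c₀ k) x y z ?_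
    have := (hw (st (k + 1)).1).le_r
    have := h3 k
    have := h6 j k (c₀ k) hj
    linarith

theorem weissJ_of_tower {X : Type u} [MetricSpace X] [CompactSpace X] [Nonempty X]
    (gCBJ : CBJ) (gSPB : SPB.{u}) (gJREP : JREP.{u}) (F : X → X)
    (htow : ∃ (f : ℕ → X → X → ℝ) (δ η : ℕ → ℝ), Pool.Agent.Helper23.Weiss.IsTower f δ η ∧
      ∀ k, ∀ s t, 0 < s → s < t → t < 1 →
        CmpJ F {z | t < f k z.1 z.2} {z | s < f k z.1 z.2}) :
    ∃ D : X → X → ℝ, IsEquivMetric D ∧ ∀ ε > 0, HasJointRate D F ε := by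
  classical
  obtain ⟨f, δ, η, htower, hcmp⟩ := htow
  have hD : IsEquivMetric (Pool.Agent.Helper23.Weiss.glue f) := equiv_of htower.isEquivMetric
  set D := Pool.Agent.Helper23.Weiss.glue f with hDdef
  refine gJREP X F D hD ?_
  refine gCBJ (fun ε T => Real.log (sepNum D F ε T) / T)
    (fun ε T => Real.log (spanNum D F ε T) / T) ?_ ?_
  · intro ε hε
    obtain ⟨n, hn, κ, hκ⟩ := Pool.Agent.Helper42.Weiss.exists_label hD hε
    have hlog : 0 ≤ Real.log n := Real.log_natCast_nonneg n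
    refine ⟨Real.log n, fun T => ⟨div_nonneg (Real.log_natCast_nonneg _) (Nat.cast_nonneg _),
      ?_, ?_⟩⟩
    · obtain ⟨h1, h2, -, -⟩ := gSPB X D hD F ε hε T
      refine div_le_div_of_nonneg_right (Real.log_le_log ?_ ?_) (Nat.cast_nonneg _)
      · exact_mod_cast h2 inferInstance
      · exact_mod_cast h1
    · rcases Nat.eq_zero_or_pos T with h0 | h0
      · subst h0
        simpa using hlog
      · rw [div_le_iff₀ (by exact_mod_cast h0)]
        have h1 : (1 : ℝ) ≤ (sepNum D F ε T : ℝ) := by exact_mod_cast one_le_sepNum hD F hε T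
        have h2 : (sepNum D F ε T : ℝ) ≤ (n : ℝ) ^ T := by exact_mod_cast sepNum_le_pow hD hε hκ T
        have h3 := Real.log_le_log (by linarith) h2
        rw [Real.log_pow] at h3
        linarith
  · intro ε' ε hε' hlt
    have hε := hε'.trans hlt
    have hnn : ∀ T : ℕ, 0 ≤ Real.log (spanNum D F ε' T) / T := fun T =>
      div_nonneg (Real.log_natCast_nonneg _) (Nat.cast_nonneg _)
    rcases le_or_gt ε 1 with hε1 | hε1
    · obtain ⟨k, s, t, hs, hst, ht, h1, h2⟩ := exists_level hε' hlt hε1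
      obtain ⟨c, hc⟩ := hcmp k s t hs hst ht
      refine ⟨c, fun η' hη' => ?_⟩
      obtain ⟨N, hN⟩ := hc η' hη'
      refine ⟨max N 1, fun T hT => ?_⟩
      obtain ⟨hsep, hspan⟩ := hN T ((le_max_left _ _).trans hT)
      have hT1 : 1 ≤ T := (le_max_right _ _).trans hT
      have hT0 : (0 : ℝ) < T := by exact_mod_cast hT1
      constructor
      · obtain ⟨E, hE, hEs⟩ := exists_sepNum hD F hε T
        have hEne : E.Nonempty := by
          rw [← Finset.card_pos, hE]
          exact one_le_sepNum hD F hε T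
        have h3 := hsep E hEne (by
          intro x hx y hy hne
          obtain ⟨u, hu, h⟩ := hEs x hx y hy hne
          refine ⟨u, hu, ?_⟩
          show t < f k (F^[u] x) (F^[u] y)
          by_contra hcon
          rw [not_lt, ← htower.glue_le_iff (hs.trans hst).le ht] at hcon
          linarith)
        show Real.log (sepNum D F ε T) / T ≤ c + η'
        rw [div_le_iff₀ hT0, ← hE]
        exact h3
      · obtain ⟨-, h2', -, S, hS, hSs⟩ := gSPB X D hD F ε' hε' T
        have hSne : S.Nonempty := by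
          rw [← Finset.card_pos, hS]
          exact h2' inferInstance
        have h3 := hspan S hSne (by
          intro x
          obtain ⟨y, hy, h⟩ := hSs x
          refine ⟨y, hy, ?_⟩
          rintro ⟨u, hu, h'⟩
          have h4 : s < f k (F^[u] x) (F^[u] y) := h'
          have h5 := (htower.glue_le_iff (k := k) hs.le (hst.trans ht) (F^[u] x) (F^[u] y)).1
            ((h u hu).trans h1)
          linarith)
        show c - η' ≤ Real.log (spanNum D F ε' T) / T
        rw [le_div_iff₀ hT0, ← hS]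
        exact h3
    · refine ⟨0, fun η' hη' => ⟨0, fun T _ => ⟨?_, ?_⟩⟩⟩
      · obtain ⟨E, hE, hEs⟩ := exists_sepNum hD F hε T
        have hcard : E.card ≤ 1 := by
          rw [Finset.card_le_one]
          intro x hx y hy
          by_contra hne
          obtain ⟨u, hu, h⟩ := hEs x hx y hy hne
          have := htower.glue_le_one (F^[u] x) (F^[u] y)
          linarith
        have h1 : Real.log (sepNum D F ε T) = 0 := by
          rw [← hE]
          have : E.card = 0 ∨ E.card = 1 := by omega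
          rcases this with h | h <;> simp [h]
        show Real.log (sepNum D F ε T) / T ≤ 0 + η'
        rw [h1, zero_div]
        linarith
      · have := hnn T
        show 0 - η' ≤ Real.log (spanNum D F ε' T) / T
        linarith

theorem hasJointRate_of_isEmpty {X : Type*} [IsEmpty X] (D : X → X → ℝ) (F : X → X) (ε : ℝ) :
    HasJointRate D F ε := by
  refine ⟨0, ?_, ?_⟩
  · have h : ∀ T, sepNum D F ε T = 0 := by
      intro T
      unfold sepNum
      have : {n : ℕ | ∃ E : Finset X, E.card = n ∧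
          ∀ x ∈ E, ∀ y ∈ E, x ≠ y → ε < dynDist D F T x y} ⊆ {0} := by
        rintro n ⟨E, hE, -⟩
        rw [Finset.eq_empty_of_isEmpty E] at hE
        simpa using hE.symm
      refine Nat.le_zero.1 ?_
      exact csSup_le' (fun n hn => (this hn).le)
    simp [h]
  · have h : ∀ T, spanNum D F ε T = 0 := by
      intro T
      unfold spanNum
      refine Nat.le_zero.1 (Nat.sInf_le ⟨∅, Finset.card_empty, fun x => isEmptyElim x⟩)
    simp [h]

/-- **Weiss' question, joint version.** -/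
theorem weissJ_of {X : Type u} [MetricSpace X] [CompactSpace X]
    (gFREQ : FREQ.{u}) (gREF : REF.{u}) (gSTAR : STAR.{u}) (gNBB : NBB.{u}) (gBLK : BLK.{u})
    (gCAP : CAPSH.{u}) (gTOPO : TOPO.{u}) (gNUM1 : NUM1) (gNUM2 : NUM2) (gBIN : BIN)
    (gB1 : BASE1.{u}) (gB2 : BASE2.{u}) (gB3 : BASE3.{u}) (gCMP : CMP.{u})
    (gCBJ : CBJ) (gSPB : SPB.{u}) (gJREP : JREP.{u}) (gPLAT : PLAT.{u})
    (F : X → X) (hFc : Continuous F) :
    ∃ D : X → X → ℝ, IsEquivMetric D ∧ ∀ ε > 0, HasJointRate D F ε := by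
  classical
  rcases isEmpty_or_nonempty X with hX | hX
  · refine ⟨fun _ _ => 0, ⟨fun x => (hX.false x).elim, fun x => (hX.false x).elim,
      fun x => (hX.false x).elim, fun x => (hX.false x).elim, fun x => (hX.false x).elim⟩,
      fun ε _ => hasJointRate_of_isEmpty _ F ε⟩
  by_cases hpl : ∃ ε₀ > 0, ∀ ε > 0, covR F ε ≤ covR F ε₀
  · obtain ⟨ε₀, hε₀, h⟩ := hpl
    exact gPLAT X F hFc ε₀ hε₀ h
  have hnp : ∀ ε₀ > 0, ∃ ε > 0, covR F ε₀ < covR F ε := by
    intro ε₀ hε₀
    by_contra hcon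
    exact hpl ⟨ε₀, hε₀, fun ε hε => not_lt.1 (fun h => hcon ⟨ε, hε, h⟩)⟩
  refine weissJ_of_tower gCBJ gSPB gJREP F (exists_towerJ F (fun r hr => ?_))
  exact exists_winJ gCMP (fun F hF r ε₁ hr hε₁ hlt => baseJ gB1 gB2 gB3 F hF r ε₁ hr hε₁ hlt)
    (fun F hF {C U} hC hU hCU h => insertJ gFREQ gREF gSTAR gNBB gBLK gCAP gTOPO gNUM1 gNUM2
      gBIN F hF hC hU hCU h) F hFc hnp hr

end Pool.Agent.Helper48.WeissJ
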