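import Pool.Agent.Helper48.WeissJ.Api

/-! MP_6b0aee_an (Weiss), joint version: the packets. -/

open Set Filter Topology

namespace Pool.Agent.Helper48.WeissJ

open Pool.Agent.Helper38.Weiss (Conf Sym covN covR)
open Pool.Agent.Helper42.Weiss (IsEquivMetric sepNum dynDist)

universe u v

/-! ### Mathlib only -/

/-- TH: choice of a threshold `κ` off which almost no weight is lost. -/
def TH : Prop := ∀ (ι : ℕ → Type u) (J : ℕ → Type v) [∀ g, Fintype (ι g)] [∀ g, Fintype (J g)]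
  (n : ℕ), (∀ g, Fintype.card (J g) ≤ n * g) → ∀ (c : (g : ℕ) → ι g → ℝ), (∀ g i, 0 ≤ c g i) →
  (∀ g, 0 < ∑ i, c g i) → ∀ (t : (g : ℕ) → ι g → J g → ℝ) (a b ε : ℝ), a < b → 0 < ε →
  ∃ κ ∈ Set.Ioo a b, ∃ ω > 0, ∃ᶠ g : ℕ in atTop,
    Real.exp (-(ε * g)) * ∑ i, c g i ≤ ∑ i, c g i * ∏ l, min 1 (|t g i l - κ| / ω)

/-- BIN: greedy bins. -/
def BIN : Prop := ∀ (ι κ : Type) [Fintype ι] [Fintype κ] (f : ι → κ) (wt : ι → ℝ),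
  (∀ i, 0 ≤ wt i) → (∀ i, wt i ≤ 1) → ∀ M : ℝ, 0 < M → ∃ (N : ℕ) (bin : ι → Fin N),
    (∀ i j, bin i = bin j → f i = f j) ∧
    (∀ k, ∑ i ∈ Finset.univ.filter (fun i => bin i = k), wt i ≤ M + 1) ∧
    (N : ℝ) ≤ (∑ i, wt i) / M + Fintype.card κ

/-- NUM1: the parameters of one step. -/
def NUM1 : Prop := ∀ (a L : ℕ) (C ε : ℝ), 1 ≤ a → 0 ≤ C → 0 < ε →
  ∃ (m H : ℕ) (K : ℝ), 0 < m ∧ 0 < H ∧ 0 < K ∧ C * Real.exp (-(ε * H)) ≤ 1 / 4 ∧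
    ∀ᶠ T : ℕ in atTop, 2 ≤ Real.exp (ε * T) ∧
      (H : ℝ) * T * C * (a : ℝ) ^ T * (2 * Real.exp (-(ε * T))) ^ m ≤ 1 / 4 ∧
      (H : ℝ) * (T * ((m + 1) * T) + 1) * C * (a : ℝ) ^ (2 * T) * (2 * (a : ℝ)) ^ (T + L) *
        Real.exp (-(K * (T + L : ℕ))) ≤ 1 / 4

/-- NUM2: the number of names in one step. -/
def NUM2 : Prop := ∀ (a L : ℕ) (ε γ r : ℝ), 1 ≤ a → 0 < ε → γ ≤ r →
  ∀ᶠ T : ℕ in atTop, (a : ℝ) ^ L * Real.exp ((r + ε) * T) + 2 * Real.exp (γ * T) ≤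
    Real.exp ((r + 2 * ε) * T)

/-- CBJ: countably many bad parameters. -/
def CBJ : Prop := ∀ (a s : ℝ → ℕ → ℝ),
  (∀ ε > 0, ∃ C, ∀ T, 0 ≤ s ε T ∧ s ε T ≤ a ε T ∧ a ε T ≤ C) →
  (∀ ε' ε, 0 < ε' → ε' < ε → ∃ c : ℝ, ∀ η > 0, ∃ N : ℕ, ∀ T ≥ N, a ε T ≤ c + η ∧ c - η ≤ s ε' T) →
  {ε : ℝ | 0 < ε ∧ ¬ ∃ L : ℝ, Tendsto (a ε) atTop (𝓝 L) ∧
    Tendsto (s ε) atTop (𝓝 L)}.Countable

/-! ### metrics -/

/-- SPB: basic facts on spanning numbers. -/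
def SPB : Prop := ∀ (X : Type u) [TopologicalSpace X] [CompactSpace X] (D : X → X → ℝ),
  IsEquivMetric D → ∀ (F : X → X) (ε : ℝ), 0 < ε → ∀ T : ℕ,
    spanNum D F ε T ≤ sepNum D F ε T ∧ (Nonempty X → 1 ≤ spanNum D F ε T) ∧
    (∀ S : Finset X, (∀ x, ∃ y ∈ S, ∀ t < T, D (F^[t] x) (F^[t] y) ≤ ε) →
      spanNum D F ε T ≤ S.card) ∧
    ∃ S : Finset X, S.card = spanNum D F ε T ∧ ∀ x, ∃ y ∈ S, ∀ t < T, D (F^[t] x) (F^[t] y) ≤ ε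

/-- JREP: repair lemma, joint version. -/
def JREP : Prop := ∀ (X : Type u) [TopologicalSpace X] (F : X → X) (D : X → X → ℝ),
  IsEquivMetric D → {ε : ℝ | 0 < ε ∧ ¬ HasJointRate D F ε}.Countable →
  ∃ D' : X → X → ℝ, IsEquivMetric D' ∧ ∀ ε > 0, HasJointRate D' F ε

/-- PLAT: the plateau case. -/
def PLAT : Prop := ∀ (X : Type u) [MetricSpace X] [CompactSpace X] [Nonempty X] (F : X → X),
  Continuous F → ∀ ε₀ > 0, (∀ ε > 0, covR F ε ≤ covR F ε₀) →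
  ∃ D : X → X → ℝ, IsEquivMetric D ∧ ∀ ε > 0, HasJointRate D F ε

/-! ### capacities -/

/-- FREQ: it is enough to have the lower bound frequently; the exact rate. -/
def FREQ : Prop := ∀ (X : Type u) (Λ : Type) [TopologicalSpace X] [Nonempty X] [Fintype Λ]
  (F : X → X) (q : Λ → X → ℝ), IsCoding q →
  (∀ p : ℝ, (∃ᶠ g : ℕ in atTop, Real.exp (p * g) ≤ cap F q g univ) → PB F q p) ∧
  (∀ p : ℝ, PB F q p → ∃ P ≥ p, PB F q P ∧ ∀ ε > 0, ∃ g₀ : ℕ, ∀ g ≥ g₀,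
    cap F q g univ ≤ Real.exp ((P + ε) * g))

/-- REF: refining a coding by a threshold. -/
def REF : Prop := ∀ (X : Type u) (Λ : Type) [TopologicalSpace X] [Nonempty X] [Fintype Λ]
  (F : X → X) (q : Λ → X → ℝ), IsCoding q → ∀ (p : ℝ), PB F q p → ∀ (v : X → ℝ),
  Continuous v → ∀ (a b ε : ℝ), a < b → 0 < ε →
  ∃ κ ∈ Set.Ioo a b, ∃ ω > 0, PB F (refi q v κ ω) (p - ε)

/-- REN: renewal. -/
def REN : Prop := ∀ (X : Type u) (Λ : Type) [TopologicalSpace X] [Fintype Λ] [Nonempty Λ]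
  (F : X → X) (q : Λ → X → ℝ), IsCoding q → ∀ (E : Set (X × X)) (θ : ℝ), 0 ≤ θ →
  ∀ (Lm : ℕ) (I : Type) [Fintype I] (ℓ : I → ℕ) (k : I → ℝ), (∀ i, 0 < ℓ i ∧ ℓ i ≤ Lm) →
  (∀ i, 0 ≤ k i) → ∑ i, k i ≤ 1 →
  (∀ x, ∃ Y : I → Set X, star F E Lm x ⊆ ⋃ i, Y i ∧
    ∀ i, cap F q (ℓ i) (Y i) ≤ k i * Real.exp (θ * ℓ i)) →
  SB F q E θ

/-- The situation of the star bound. -/
structure StarData (X : Type u) (Λ : Type) [TopologicalSpace X] [Fintype Λ] (F : X → X)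
    (q : Λ → X → ℝ) (q' : Λ × Bool → X → ℝ) (B : Set X) (D Sh : Set (X × X))
    (C β M b : ℝ) (L T : ℕ) : Prop where
  hq : IsCoding q
  hq' : IsCoding q'
  hle : ∀ a σ x, q' (a, σ) x ≤ q a x
  hB : ∀ a x, x ∉ B → q' (a, false) x = 0
  hlow : ∀ x ∈ B, ∀ w : Fin L → Λ, qw F q L w x ≤ b
  hD : ∀ (g : ℕ) (x : X), cap F q g (star F D g x) ≤ C * Real.exp (β * g)
  hSh : ∀ x, cap F q T {y | (x, y) ∈ Sh ∧ y ∉ B} ≤ M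
  hL : 0 < L
  hT : 0 < T
  hb : 0 ≤ b
  hM : 0 ≤ M
  hC : 0 ≤ C
  hβ : 0 ≤ β
  hΛ : 1 ≤ Fintype.card Λ

/-- PC1: three elementary capacity bounds. -/
def PC1 : Prop := ∀ (X : Type u) (Λ : Type) [TopologicalSpace X] [Fintype Λ] (F : X → X)
  (q : Λ → X → ℝ) (q' : Λ × Bool → X → ℝ) (B : Set X) (D Sh : Set (X × X))
  (C β M b : ℝ) (L T : ℕ), StarData X Λ F q q' B D Sh C β M b L T →
  (∀ Y ⊆ B, cap F q' L Y ≤ (2 * (Fintype.card Λ : ℝ)) ^ L * b) ∧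
  (∀ (g : ℕ) (Y : Set X), (∀ y ∈ Y, ∀ s < g, F^[s] y ∉ B) → cap F q' g Y ≤ cap F q g Y) ∧
  (∀ (k : ℕ) (x : X) (Y : Set X), (∀ y ∈ Y, ∀ s < k * T, F^[s] y ∉ B) →
    (∀ y ∈ Y, ∀ j < k, (F^[j * T] x, F^[j * T] y) ∈ Sh) → cap F q (k * T) Y ≤ M ^ k)

/-- PC2: the capacity bounds of the four types of steps. -/
def PC2 : Prop := ∀ (X : Type u) (Λ : Type) [TopologicalSpace X] [Fintype Λ] (F : X → X)
  (q : Λ → X → ℝ) (q' : Λ × Bool → X → ℝ) (B : Set X) (D Sh : Set (X × X))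
  (C β M b : ℝ) (L T : ℕ), StarData X Λ F q q' B D Sh C β M b L T →
  ∀ (x : X) (s : ℕ) (Y : Set X),
  (∀ y ∈ Y, ∀ i < s, (F^[i] x, F^[i] y) ∈ D ∧ F^[i] y ∉ B) →
  cap F q' s Y ≤ C * Real.exp (β * s) ∧
  ((∀ y ∈ Y, F^[s] y ∈ B) →
    cap F q' (s + L) Y ≤ C * Real.exp (β * s) * ((2 * (Fintype.card Λ : ℝ)) ^ L * b)) ∧
  (∀ u m : ℕ, (∀ y ∈ Y, ∀ i < u + m * T, F^[s + i] y ∉ B) →
    (∀ y ∈ Y, ∀ k < m, (F^[s + (u + k * T)] x, F^[s + (u + k * T)] y) ∈ Sh) →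
    cap F q' (s + (u + m * T)) Y ≤
      C * Real.exp (β * s) * ((Fintype.card Λ : ℝ) ^ u * M ^ m)) ∧
  (∀ u τ : ℕ, u < T → (∀ y ∈ Y, ∀ i < τ, F^[s + i] y ∉ B) → (∀ y ∈ Y, F^[s + τ] y ∈ B) →
    (∀ y ∈ Y, ∀ k : ℕ, u + (k + 1) * T ≤ τ →
      (F^[s + (u + k * T)] x, F^[s + (u + k * T)] y) ∈ Sh) →
    cap F q' (s + (τ + L)) Y ≤ C * Real.exp (β * s) *
      ((Fintype.card Λ : ℝ) ^ (2 * T) * M ^ ((τ - u) / T) *
        ((2 * (Fintype.card Λ : ℝ)) ^ L * b)))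

/-- STAR: the star bound. -/
def STAR : Prop := ∀ (X : Type u) (Λ : Type) [TopologicalSpace X] [Fintype Λ] (F : X → X)
  (q : Λ → X → ℝ) (q' : Λ × Bool → X → ℝ) (B : Set X) (D Sh : Set (X × X))
  (C β M b : ℝ) (L T : ℕ), StarData X Λ F q q' B D Sh C β M b L T →
  ∀ (E : Set (X × X)) (θ : ℝ) (m H : ℕ), 0 < m → 0 < H → β ≤ θ →
  (∀ x y, (x, y) ∈ E → (x, y) ∈ D ∨ (x, y) ∈ Chn F T m Sh) →
  C * Real.exp ((β - θ) * H) ≤ 1 / 4 →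
  (H : ℝ) * T * C * (Fintype.card Λ : ℝ) ^ T * (M * Real.exp (-(θ * T))) ^ m ≤ 1 / 4 →
  M ≤ Real.exp (θ * T) →
  (H : ℝ) * (T * ((m + 1) * T) + 1) * C * (Fintype.card Λ : ℝ) ^ (2 * T) *
    (2 * (Fintype.card Λ : ℝ)) ^ L * b ≤ 1 / 4 →
  SB F q' E θ

/-- CMP: a link gives the comparison of the rates. -/
def CMP : Prop := ∀ (X : Type u) [TopologicalSpace X] [Nonempty X] (F : X → X)
  (C U : Set (X × X)), Link F C U → CmpJ F C U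

/-- NBB: names from block names. -/
def NBB : Prop := ∀ (X : Type u) (Λ' B₀ : Type) [Fintype B₀] (F : X → X) (q' : Λ' → X → ℝ)
  (R Sh Q : Set (X × X)) (T L m K : ℕ) (γ : ℝ) (c₀ : X → B₀) (ν₀ : (Fin (T + L) → Λ') → B₀),
  0 < T → 0 < K → (∀ a x, 0 ≤ q' a x) →
  (∀ x y, c₀ x = c₀ y → (x, y) ∈ Sh ∧ ∀ s < T, (F^[s] x, F^[s] y) ∈ R) →
  (∀ (w w' : Fin (T + L) → Λ') (x y : X), 0 < qw F q' (T + L) w x → 0 < qw F q' (T + L) w' y →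
    ν₀ w = ν₀ w' → (x, y) ∈ Sh ∧ ∀ s < T, (F^[s] x, F^[s] y) ∈ R) →
  R ∩ Chn F T m Sh ⊆ Q →
  (Fintype.card B₀ : ℝ) ^ (K + m) ≤ Real.exp (γ * (K * T)) →
  NB F q' Q γ

/-- BLK: the block names. -/
def BLK : Prop := ∀ (X : Type u) (Λ : Type) [TopologicalSpace X] [Fintype Λ] (F : X → X)
  (q : Λ → X → ℝ), IsCoding q → ∀ (R : Set (X × X)) (T L N n N₁ : ℕ)
  (ν : (Fin (T + L) → Λ) → Fin N) (c : X → Fin N) (bin : (Fin (n * T + L) → Λ) → Fin N₁)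
  (κ ω : ℝ), 0 < T → 0 < n → 0 < κ → 0 < ω →
  (∀ x y, c x = c y → ∀ s < T, (F^[s] x, F^[s] y) ∈ R) →
  (∀ (w w' : Fin (T + L) → Λ) (x y : X), 0 < qw F q (T + L) w x → 0 < qw F q (T + L) w' y →
    ν w = ν w' → ∀ s < T, (F^[s] x, F^[s] y) ∈ R) →
  (∀ w w', bin w = bin w' → cl ν w = cl ν w') →
  ∃ (c₀ : X → Fin N₁ ⊕ (Fin n → Fin N))
    (ν₀ : (Fin (n * T + L) → Λ × Bool) → Fin N₁ ⊕ (Fin n → Fin N)),
    (∀ x y, c₀ x = c₀ y → (x, y) ∈ Sh₀ F q (n * T + L) bin κ ∧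
      ∀ s < n * T, (F^[s] x, F^[s] y) ∈ R) ∧
    (∀ (w w' : Fin (n * T + L) → Λ × Bool) (x y : X),
      0 < qw F (refi q (tot F q (n * T + L)) κ ω) (n * T + L) w x →
      0 < qw F (refi q (tot F q (n * T + L)) κ ω) (n * T + L) w' y → ν₀ w = ν₀ w' →
      (x, y) ∈ Sh₀ F q (n * T + L) bin κ ∧ ∀ s < n * T, (F^[s] x, F^[s] y) ∈ R)

/-- CAPSH: the content of the bins. -/
def CAPSH : Prop := ∀ (X : Type u) (Λ : Type) [TopologicalSpace X] [Fintype Λ] (F : X → X)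
  (q : Λ → X → ℝ), IsCoding q → ∀ (T L : ℕ),
  (∑ w : Fin (T + L) → Λ, top F q T (fun s => w (Fin.castAdd L s)) univ ≤
    (Fintype.card Λ : ℝ) ^ L * cap F q T univ) ∧
  ∀ (N₁ : ℕ) (bin : (Fin (T + L) → Λ) → Fin N₁) (M b : ℝ), 0 ≤ M →
  (∀ k, ∑ w ∈ Finset.univ.filter (fun w => bin w = k),
    top F q T (fun s => w (Fin.castAdd L s)) univ ≤ M) →
  ∀ x : X, cap F q T {y | (x, y) ∈ Sh₁ F q (T + L) bin b ∧ y ∉ {y | tot F q (T + L) y < b}} ≤ M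

/-- TOPO: topology of the relations. -/
def TOPO : Prop := ∀ (X : Type u) (Λ : Type) [TopologicalSpace X] [Fintype Λ] (F : X → X),
  Continuous F → ∀ (q : Λ → X → ℝ), IsCoding q → ∀ (T m L N₁ : ℕ)
  (bin : (Fin L → Λ) → Fin N₁) (κ b : ℝ), 0 < κ → κ < b →
  IsClosed (Chn F T m (Sh₀ F q L bin κ)) ∧ IsOpen (Chn F T m (Sh₁ F q L bin b)) ∧
  Chn F T m (Sh₀ F q L bin κ) ⊆ Chn F T m (Sh₁ F q L bin b) ∧
  Sym (Chn F T m (Sh₀ F q L bin κ)) ∧ Sym (Chn F T m (Sh₁ F q L bin b))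

/-! ### the base -/

/-- BASE1: a coding with small supports which sees separated sets. -/
def BASE1 : Prop := ∀ (X : Type u) [MetricSpace X] [CompactSpace X] [Nonempty X] (F : X → X),
  Continuous F → ∀ (δ h ε : ℝ), 0 < δ → 0 < ε →
  (∀ g : ℕ, 0 < g → ∃ E : Finset X,
    (∀ x ∈ E, ∀ y ∈ E, x ≠ y → ∃ t < g, δ < dist (F^[t] x) (F^[t] y)) ∧
    Real.exp (h * g) ≤ E.card) →
  ∃ (Λ : Type) (_ : Fintype Λ) (q : Λ → X → ℝ), IsCoding q ∧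
    (∀ a x y, 0 < q a x → 0 < q a y → dist x y ≤ δ) ∧ PB F q (h - ε)

/-- BASE2: the stars of a very small relation. -/
def BASE2 : Prop := ∀ (X : Type u) [MetricSpace X] [CompactSpace X] (Λ : Type) [Fintype Λ]
  (F : X → X) (q : Λ → X → ℝ), IsCoding q →
  ∃ ρ > 0, SB F q {z : X × X | dist z.1 z.2 < ρ} 0

/-- BASE3: the names of the base. -/
def BASE3 : Prop := ∀ (X : Type u) [MetricSpace X] [CompactSpace X] [Nonempty X] (Λ : Type)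
  [Fintype Λ] (F : X → X), Continuous F → ∀ (q : Λ → X → ℝ), IsCoding q → ∀ (r κ : ℝ),
  0 < r → 0 < κ → (∀ a x y, 0 < q a x → 0 < q a y → dist x y ≤ r / 4) →
  NB F q {z : X × X | dist z.1 z.2 ≤ 3 / 2 * r} (covR F r + κ)

end Pool.Agent.Helper48.WeissJ
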