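import Pool.Agent.Helper48.WeissJ.Goals
import Pool.Agent.Helper38.Weiss.Ins

/-! The insertion step. -/

set_option linter.unusedVariables false

open Set Filter Topology

namespace Pool.Agent.Helper48.WeissJ

open Pool.Agent.Helper38.Weiss (Conf Sym covN covR sym_between)

universe u

theorem refi_qw_pos {X : Type u} {Λ : Type} [TopologicalSpace X] {F : X → X} {q : Λ → X → ℝ}
    (hq : IsCoding q) {v : X → ℝ} {κ ω : ℝ} (hω : 0 < ω) {g : ℕ} {w : Fin g → Λ × Bool} {x : X}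
    (h : 0 < qw F (refi q v κ ω) g w x) : 0 < qw F q g (fun s => (w s).1) x := by
  refine Finset.prod_pos (fun s _ => ?_)
  have hne : refi q v κ ω (w s) (F^[s] x) ≠ 0 := fun h1 =>
    h.ne' (Finset.prod_eq_zero (Finset.mem_univ s) h1)
  refine lt_of_le_of_ne (hq.nonneg _ _) (fun h1 => hne ?_)
  unfold refi
  rw [← h1, zero_mul]

theorem NB_refi {X : Type u} {Λ : Type} [TopologicalSpace X] {F : X → X} {q : Λ → X → ℝ}
    (hq : IsCoding q) {v : X → ℝ} {κ ω : ℝ} (hω : 0 < ω) {R : Set (X × X)} {γ : ℝ}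
    (h : NB F q R γ) : NB F (refi q v κ ω) R γ := by
  obtain ⟨T, L, N, ν, c, hT, hN, hc, hν⟩ := h
  exact ⟨T, L, N, fun w => ν (fun s => (w s).1), c, hT, hN, hc, fun w w' x y hx hy hw =>
    hν _ _ x y (refi_qw_pos hq hω hx) (refi_qw_pos hq hω hy) hw⟩

theorem insertJ {X : Type u} [MetricSpace X] [CompactSpace X] [Nonempty X]
    (gFREQ : FREQ.{u}) (gREF : REF.{u}) (gSTAR : STAR.{u}) (gNBB : NBB.{u}) (gBLK : BLK.{u})
    (gCAP : CAPSH.{u}) (gTOPO : TOPO.{u}) (gNUM1 : NUM1) (gNUM2 : NUM2) (gBIN : BIN)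
    (F : X → X) (hF : Continuous F) {C U : Set (X × X)} (hC : IsClosed C) (hU : IsOpen U)
    (hCU : C ⊆ U) (h : Link F C U) :
    ∃ v : Set (X × X), IsOpen v ∧ C ⊆ v ∧ closure v ⊆ U ∧ Link F C v ∧ Link F (closure v) U := by
  classical
  obtain ⟨hCs, hUs, Λ, instΛ, q, p, β, γ, D, R, hq, hp, hβ, hgap, hD, hDs, hUD, hSB, hRc, hRs,
    hRC, hNB⟩ := h
  obtain ⟨P, hPp, hPB, hup⟩ := (gFREQ X Λ F q hq).2 p hp
  haveI : Nonempty Λ := hp.nonempty
  obtain ⟨T, L, N, ν, c, hT, hN, hc, hν⟩ := id hNB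
  obtain ⟨C₀, hC₀⟩ := hSB
  obtain ⟨x₀⟩ := ‹Nonempty X›
  haveI : Nonempty X := ⟨x₀⟩
  have hC₀0 : 0 ≤ C₀ := by
    have h1 := hC₀ 0 x₀
    have h2 := hq.cap_nonneg (F := F) 0 (star F D 0 x₀)
    simp only [Nat.cast_zero, mul_zero, Real.exp_zero, mul_one] at h1
    linarith
  have hN1 : 1 ≤ N := Nat.one_le_iff_ne_zero.2 (fun h0 => by subst h0; exact (c x₀).elim0)
  have hTr : (0 : ℝ) < T := by exact_mod_cast hT
  have hγ : 0 ≤ γ := by
    have h1 : (1 : ℝ) ≤ N := by exact_mod_cast hN1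
    have h2 : Real.exp 0 ≤ Real.exp (γ * T) := by
      rw [Real.exp_zero]
      exact h1.trans hN
    have h3 := Real.exp_le_exp.1 h2
    by_contra hcon
    rw [not_le] at hcon
    nlinarith
  set ε : ℝ := (P - β - γ) / 12 with hε
  have hεpos : 0 < ε := by
    rw [hε]
    have : 0 < P - β - γ := by linarith
    positivity
  have hPeq : P = β + γ + 12 * ε := by rw [hε]; ring
  set r : ℝ := γ + 6 * ε with hr
  have ha1 : 1 ≤ Fintype.card Λ := Fintype.card_pos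
  obtain ⟨m, H, K, hm, hH, hK, hCH, hev⟩ := gNUM1 (Fintype.card Λ) L C₀ ε ha1 hC₀0 hεpos
  have hev2 := gNUM2 (Fintype.card Λ) L ε γ r ha1 hεpos (by rw [hr]; linarith)
  obtain ⟨g₀, hg₀⟩ := hup ε hεpos
  obtain ⟨T₁, hT₁⟩ := eventually_atTop.1 (hev.and (hev2.and (eventually_ge_atTop g₀)))
  set n : ℕ := max T₁ 1 with hn
  have hn1 : 0 < n := lt_of_lt_of_le one_pos (le_max_right _ _)
  have hnT : T₁ ≤ n * T := by
    calc T₁ ≤ n := le_max_left _ _
      _ = n * 1 := (mul_one n).symm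
      _ ≤ n * T := Nat.mul_le_mul_left _ hT
  obtain ⟨⟨hn2, hn3, hn4⟩, hn5, hn6⟩ := hT₁ (n * T) hnT
  have hcap := hg₀ (n * T) hn6
  have hnT0 : 0 < n * T := Nat.mul_pos hn1 hT
  obtain ⟨Tn, hTn⟩ : ∃ Tn : ℝ, Tn = ((n * T : ℕ) : ℝ) := ⟨_, rfl⟩
  have hTn0 : 0 < Tn := by rw [hTn]; exact_mod_cast hnT0
  rw [← hTn] at hn2 hn3 hn4 hn5 hcap
  set b : ℝ := Real.exp (-(K * ((n * T + L : ℕ) : ℝ))) with hb
  have hb0 : 0 < b := Real.exp_pos _
  -- the bins
  set M : ℝ := Real.exp ((P - r) * Tn) with hM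
  have hM1 : 1 ≤ M := by
    rw [hM, ← Real.exp_zero]
    refine Real.exp_le_exp.2 (mul_nonneg ?_ hTn0.le)
    rw [hr]; linarith
  have hM0 : 0 < M := by linarith
  obtain ⟨N₁, bin, hbin1, hbin2, hbin3⟩ := gBIN (Fin (n * T + L) → Λ) (Fin n → Fin N) (cl ν)
    (fun w => top F q (n * T) (fun s => w (Fin.castAdd L s)) univ)
    (fun w => hq.top_nonneg _ _ _) (fun w => hq.top_le_one _ _ _) M hM0
  obtain ⟨hcs1, hcs2⟩ := gCAP X Λ F q hq (n * T) L
  have hcardB : (Fintype.card (Fin N₁ ⊕ (Fin n → Fin N)) : ℝ) ≤ Real.exp ((r + 2 * ε) * Tn) := by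
    have h1 : (Fintype.card (Fin n → Fin N) : ℝ) ≤ Real.exp (γ * Tn) := by
      rw [Fintype.card_fun, Fintype.card_fin, Fintype.card_fin]
      push_cast
      calc (N : ℝ) ^ n ≤ (Real.exp (γ * T)) ^ n := pow_le_pow_left₀ (Nat.cast_nonneg _) hN n
        _ = Real.exp (γ * Tn) := by
          rw [← Real.exp_nat_mul, hTn]
          congr 1
          push_cast
          ring
    have h2 : (N₁ : ℝ) ≤ (Fintype.card Λ : ℝ) ^ L * Real.exp ((r + ε) * Tn) +
        Real.exp (γ * Tn) := by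
      refine hbin3.trans (add_le_add ?_ h1)
      rw [div_le_iff₀ hM0]
      calc _ ≤ (Fintype.card Λ : ℝ) ^ L * cap F q (n * T) univ := hcs1
        _ ≤ (Fintype.card Λ : ℝ) ^ L * Real.exp ((P + ε) * Tn) := by gcongr
        _ = _ := by
          rw [hM, mul_assoc, ← Real.exp_add]
          congr 2
          ring
    rw [Fintype.card_sum, Fintype.card_fin]
    push_cast at h1 ⊢
    linarith
  -- the new coding
  have hvc : Continuous (tot F q (n * T + L)) := continuous_tot hF hq _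
  obtain ⟨κ, hκ, ω, hω, hPB'⟩ := gREF X Λ F q hq P hPB (tot F q (n * T + L)) hvc (b / 2) b ε
    (by linarith) hεpos
  have hκ0 : 0 < κ := by linarith [hκ.1]
  set q' := refi q (tot F q (n * T + L)) κ ω with hq'def
  have hq' : IsCoding q' := hq.refi hvc κ hω
  -- star data
  have hSD : StarData X Λ F q q' {y | tot F q (n * T + L) y < b} D
      (Sh₁ F q (n * T + L) bin b) C₀ β (2 * M) b (n * T + L) (n * T) := by
    refine ⟨hq, hq', fun a σ x => refi_le hq _ κ ω a σ x, ?_, ?_, hC₀, ?_, by omega, hnT0, hb0.le,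
      by positivity, hC₀0, hβ, ha1⟩
    · intro a x hx
      have h1 : b ≤ tot F q (n * T + L) x := not_lt.1 hx
      rw [hq'def]
      unfold refi
      simp only [Bool.false_eq_true, if_false]
      rw [dn_eq_zero (by linarith [hκ.2]), mul_zero]
    · intro x hx w
      exact (hq.qw_le_tot _ w x).trans (le_of_lt hx)
    · intro x
      refine hcs2 N₁ bin (2 * M) b (by positivity) (fun k => (hbin2 k).trans (by linarith)) x
  have hSD0 : StarData X Λ F q q' {y | tot F q (n * T + L) y < b} D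
      ∅ C₀ β 0 b (n * T + L) (n * T) := by
    refine ⟨hSD.hq, hSD.hq', hSD.hle, hSD.hB, hSD.hlow, hSD.hD, ?_, hSD.hL, hSD.hT, hSD.hb,
      le_rfl, hSD.hC, hSD.hβ, hSD.hΛ⟩
    intro x
    have : {y | (x, y) ∈ (∅ : Set (X × X)) ∧ y ∉ {y | tot F q (n * T + L) y < b}} = ∅ := by
      ext y
      simp
    rw [this]
    unfold cap top
    simp
  set Q1 : Set (X × X) := (D ∩ Cᶜ) ∪ (Cᶜ ∩ Chn F (n * T) m (Sh₁ F q (n * T + L) bin b)) with hQ1
  set Q0 : Set (X × X) := Uᶜ ∪ (R ∩ Chn F (n * T) m (Sh₀ F q (n * T + L) bin κ)) with hQ0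
  obtain ⟨ht1, ht2, ht3, ht4, ht5⟩ := gTOPO X Λ F hF q hq (n * T) m (n * T + L) N₁ bin κ b hκ0 hκ.2
  have hfour : ∀ (m' : ℕ), m' ≤ m → (H : ℝ) * (((n * T : ℕ) : ℝ) * ((m' + 1) * ((n * T : ℕ) : ℝ))
      + 1) * C₀ * (Fintype.card Λ : ℝ) ^ (2 * (n * T)) *
      (2 * (Fintype.card Λ : ℝ)) ^ (n * T + L) * b ≤ 1 / 4 := by
    intro m' hm'
    refine le_trans ?_ hn4
    rw [← hTn, hb]
    have hm'' : (m' : ℝ) ≤ m := by exact_mod_cast hm'
    gcongr
  have hSBQ : SB F q' Q1 (P - r + ε) := by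
    refine gSTAR X Λ F q q' _ D _ C₀ β (2 * M) b (n * T + L) (n * T) hSD Q1 (P - r + ε) m H hm hH
      (by rw [hr, hPeq]; linarith) ?_ ?_ ?_ ?_ (hfour m le_rfl)
    · rintro x y (hxy | hxy)
      · exact Or.inl hxy.1
      · exact Or.inr hxy.2
    · refine le_trans ?_ hCH
      refine mul_le_mul_of_nonneg_left (Real.exp_le_exp.2 ?_) hC₀0
      have : (0 : ℝ) ≤ H := Nat.cast_nonneg _
      rw [hr, hPeq]
      nlinarith
    · refine le_trans (le_of_eq ?_) hn3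
      rw [← hTn, hM]
      congr 2
      rw [mul_assoc, ← Real.exp_add]
      congr 2
      ring
    · rw [← hTn]
      calc 2 * M ≤ Real.exp (ε * Tn) * M := mul_le_mul_of_nonneg_right hn2 hM0.le
        _ = Real.exp ((P - r + ε) * Tn) := by
          rw [hM, ← Real.exp_add]
          congr 1
          ring
  have hSBD : SB F q' D (β + ε) := by
    refine gSTAR X Λ F q q' _ D _ C₀ β 0 b (n * T + L) (n * T) hSD0 D (β + ε) 1 H one_pos hH
      (by linarith) (fun x y hxy => Or.inl hxy) ?_ ?_ (Real.exp_pos _).le (hfour 1 hm)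
    · refine le_trans (le_of_eq ?_) hCH
      congr 2
      ring
    · norm_num
  -- names
  obtain ⟨K₂, hK₂⟩ := exists_nat_gt ((m : ℝ) * (r + 2 * ε) / ε)
  have hr0 : 0 ≤ r := by rw [hr]; linarith
  have hK₂0 : 0 < K₂ := by
    have h1 : (0 : ℝ) ≤ (m : ℝ) * (r + 2 * ε) / ε := by positivity
    exact_mod_cast h1.trans_lt hK₂
  obtain ⟨c₀, ν₀, hc₀, hν₀⟩ := gBLK X Λ F q hq R T L N n N₁ ν c bin κ ω hT hn1 hκ0 hω hc hν hbin1
  have hNBQ : NB F q' Q0 (r + 3 * ε) := by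
    refine gNBB X (Λ × Bool) (Fin N₁ ⊕ (Fin n → Fin N)) F q' R
      (Sh₀ F q (n * T + L) bin κ) Q0 (n * T) L m K₂ (r + 3 * ε) c₀ ν₀ hnT0 hK₂0
      (fun a x => hq'.nonneg a x) hc₀ hν₀ (fun z hz => Or.inr hz) ?_
    refine (pow_le_pow_left₀ (Nat.cast_nonneg _) hcardB _).trans ?_
    rw [← Real.exp_nat_mul, ← hTn]
    refine Real.exp_le_exp.2 ?_
    rw [div_lt_iff₀ hεpos] at hK₂
    push_cast
    have h1 : (m : ℝ) * (r + 2 * ε) * Tn ≤ K₂ * ε * Tn := mul_le_mul_of_nonneg_right hK₂.le hTn0.le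
    nlinarith
  -- topology
  have hQ1o : IsOpen Q1 := (hD.inter hC.isOpen_compl).union (hC.isOpen_compl.inter ht2)
  have hQ0c : IsClosed Q0 := hU.isClosed_compl.union (hRc.inter ht1)
  have hQ01 : Q0 ⊆ Q1 := by
    rintro z (hz | hz)
    · exact Or.inl ⟨hUD hz, fun hzC => hz (hCU hzC)⟩
    · exact Or.inr ⟨hRC hz.1, ht3 hz.2⟩
  have hcompl : ∀ {S : Set (X × X)}, Sym S → Sym Sᶜ := fun hS x y hxy hyx => hxy (hS y x hyx)
  have hQ1s : Sym Q1 := by
    rintro x y (hxy | hxy)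
    · exact Or.inl ⟨hDs x y hxy.1, hcompl hCs x y hxy.2⟩
    · exact Or.inr ⟨hcompl hCs x y hxy.1, ht5 x y hxy.2⟩
  have hQ0s : Sym Q0 := by
    rintro x y (hxy | hxy)
    · exact Or.inl (hcompl hUs x y hxy)
    · exact Or.inr ⟨hRs x y hxy.1, ht4 x y hxy.2⟩
  obtain ⟨v, hv, hvs, hQv, hvQ⟩ := sym_between hQ1o.isClosed_compl hQ0c.isOpen_compl
    (compl_subset_compl.2 hQ01) (hcompl hQ1s)
  refine ⟨v, hv, ?_, ?_, ?_, ?_⟩
  · intro z hz
    refine hQv (fun hz1 => ?_)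
    rcases hz1 with h1 | h1
    · exact h1.2 hz
    · exact h1.1 hz
  · intro z hz
    by_contra hcon
    exact hvQ hz (Or.inl hcon)
  · refine ⟨hCs, hvs, Λ × Bool, inferInstance, q', P - ε, P - r + ε, γ, Q1, R, hq', hPB', ?_, ?_,
      hQ1o, hQ1s, ?_, hSBQ, hRc, hRs, hRC, NB_refi hq hω hNB⟩
    · rw [hr, hPeq]; linarith
    · rw [hr, hPeq]; linarith
    · intro z hz
      by_contra hcon
      exact hz (hQv hcon)
  · refine ⟨hvs.closure, hUs, Λ × Bool, inferInstance, q', P - ε, β + ε, r + 3 * ε, D, Q0, hq',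
      hPB', by linarith, ?_, hD, hDs, hUD, hSBD, hQ0c, hQ0s, ?_, hNBQ⟩
    · rw [hr, hPeq]; linarith
    · intro z hz hzv
      exact hvQ hzv hz

end Pool.Agent.Helper48.WeissJ
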