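import Pool.Agent.Helper48.WeissJ.Goals

set_option linter.unusedVariables false

open Set Filter Topology

namespace Pool.Agent.Helper48.WeissJ

universe u

theorem ren : REN.{u} := by
  intro X Λ _ _ _ F q hq E θ hθ Lm I _ ℓ k hℓ hk hk1 hY
  have ha : (1 : ℝ) ≤ Fintype.card Λ := by exact_mod_cast (Fintype.card_pos : 0 < Fintype.card Λ)
  refine ⟨(Fintype.card Λ : ℝ) ^ Lm, fun g => ?_⟩
  induction g using Nat.strong_induction_on with
  | _ g ih =>
    intro x
    rcases lt_or_ge g Lm with hg | hg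
    · have h1 := hq.cap_le_pow (F := F) g (star F E g x)
      have h2 : (Fintype.card Λ : ℝ) ^ g ≤ (Fintype.card Λ : ℝ) ^ Lm := pow_le_pow_right₀ ha hg.le
      have h3 : (1 : ℝ) ≤ Real.exp (θ * g) := Real.one_le_exp (mul_nonneg hθ (Nat.cast_nonneg _))
      have h4 : (0 : ℝ) ≤ (Fintype.card Λ : ℝ) ^ Lm := by positivity
      nlinarith
    · obtain ⟨Y, hcov, hcap⟩ := hY x
      have h1 : star F E g x ⊆ ⋃ i, (Y i ∩ star F E g x) := by
        intro y hy
        have h2 : y ∈ star F E Lm x := fun s hs => hy s (hs.trans_le hg)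
        obtain ⟨i, hi⟩ := mem_iUnion.1 (hcov h2)
        exact mem_iUnion.2 ⟨i, hi, hy⟩
      refine (hq.cap_iUnion_le h1).trans ?_
      have h2 : ∀ i, cap F q g (Y i ∩ star F E g x) ≤
          k i * ((Fintype.card Λ : ℝ) ^ Lm * Real.exp (θ * g)) := by
        intro i
        obtain ⟨hi0, hiL⟩ := hℓ i
        have hgi : g = ℓ i + (g - ℓ i) := by omega
        have h3 : cap F q (ℓ i + (g - ℓ i)) (Y i ∩ star F E g x) ≤
            cap F q (ℓ i) (Y i ∩ star F E g x) *
              cap F q (g - ℓ i) (star F E (g - ℓ i) (F^[ℓ i] x)) := by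
          refine hq.cap_add_le (fun y hy => ?_)
          intro s hs
          rw [← Function.iterate_add_apply, ← Function.iterate_add_apply]
          exact hy.2 (s + ℓ i) (by omega)
        rw [← hgi] at h3
        have h4 : cap F q (ℓ i) (Y i ∩ star F E g x) ≤ k i * Real.exp (θ * ℓ i) :=
          (hq.cap_mono inter_subset_left).trans (hcap i)
        have h5 := ih (g - ℓ i) (by omega) (F^[ℓ i] x)
        have h6 := hq.cap_nonneg (F := F) (g - ℓ i) (star F E (g - ℓ i) (F^[ℓ i] x))
        calc _ ≤ _ := h3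
          _ ≤ (k i * Real.exp (θ * ℓ i)) *
              ((Fintype.card Λ : ℝ) ^ Lm * Real.exp (θ * (g - ℓ i : ℕ))) :=
            mul_le_mul h4 h5 h6 (mul_nonneg (hk i) (Real.exp_pos _).le)
          _ = k i * ((Fintype.card Λ : ℝ) ^ Lm *
              (Real.exp (θ * ℓ i) * Real.exp (θ * (g - ℓ i : ℕ)))) := by ring
          _ = _ := by
            rw [← Real.exp_add, ← mul_add, ← Nat.cast_add, ← hgi]
      refine (Finset.sum_le_sum (fun i _ => h2 i)).trans ?_
      rw [← Finset.sum_mul]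
      have h3 : (0 : ℝ) ≤ (Fintype.card Λ : ℝ) ^ Lm * Real.exp (θ * g) := by positivity
      calc _ ≤ 1 * ((Fintype.card Λ : ℝ) ^ Lm * Real.exp (θ * g)) :=
            mul_le_mul_of_nonneg_right hk1 h3
        _ = _ := one_mul _

end Pool.Agent.Helper48.WeissJ
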