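import Pool.Agent.Helper48.WeissJ.Goals

set_option linter.unusedVariables false

open Set Filter Topology

namespace Pool.Agent.Helper48.WeissJ

open Pool.Agent.Helper38.Weiss (Sym)

universe u

theorem topo : TOPO.{u} := by
  classical
  intro X Λ _ _ F hF q hq T m L N₁ bin κ b hκ hκb
  have hqc : ∀ w : Fin L → Λ, Continuous (qw F q L w) := fun w => continuous_qw hF hq L w
  have htc := continuous_tot (Λ := Λ) hF hq L
  have hpair : ∀ k : ℕ, Continuous (fun z : X × X => (F^[k] z.1, F^[k] z.2)) := fun k =>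
    ((hF.iterate k).comp continuous_fst).prodMk ((hF.iterate k).comp continuous_snd)
  have hS0 : IsClosed (Sh₀ F q L bin κ) := by
    have h1 : Sh₀ F q L bin κ = (⋃ w : Fin L → Λ, ⋃ w' : Fin L → Λ,
        {z : X × X | bin w = bin w'} ∩ ({z : X × X | κ ≤ qw F q L w z.1} ∩
          {z : X × X | κ ≤ qw F q L w' z.2})) ∪
        ({z : X × X | tot F q L z.1 ≤ κ} ∩ {z : X × X | tot F q L z.2 ≤ κ}) := by
      ext z
      simp [Sh₀]
    rw [h1]
    refine IsClosed.union (isClosed_iUnion_of_finite (fun w => isClosed_iUnion_of_finite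
      (fun w' => ?_))) ?_
    · refine IsClosed.inter ?_ (IsClosed.inter
        (isClosed_le continuous_const ((hqc w).comp continuous_fst))
        (isClosed_le continuous_const ((hqc w').comp continuous_snd)))
      by_cases h : bin w = bin w'
      · simp [h]
      · simp [h]
    · exact (isClosed_le (htc.comp continuous_fst) continuous_const).inter
        (isClosed_le (htc.comp continuous_snd) continuous_const)
  have hS1 : IsOpen (Sh₁ F q L bin b) := by
    have h1 : Sh₁ F q L bin b = (⋃ w : Fin L → Λ, ⋃ w' : Fin L → Λ,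
        {z : X × X | bin w = bin w'} ∩ ({z : X × X | 0 < qw F q L w z.1} ∩
          {z : X × X | 0 < qw F q L w' z.2})) ∪
        ({z : X × X | tot F q L z.1 < b} ∩ {z : X × X | tot F q L z.2 < b}) := by
      ext z
      simp [Sh₁]
    rw [h1]
    refine IsOpen.union (isOpen_iUnion (fun w => isOpen_iUnion (fun w' => ?_))) ?_
    · refine IsOpen.inter ?_ (IsOpen.inter
        (isOpen_lt continuous_const ((hqc w).comp continuous_fst))
        (isOpen_lt continuous_const ((hqc w').comp continuous_snd)))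
      by_cases h : bin w = bin w'
      · simp [h]
      · simp [h]
    · exact (isOpen_lt (htc.comp continuous_fst) continuous_const).inter
        (isOpen_lt (htc.comp continuous_snd) continuous_const)
  have hchn : ∀ Sh : Set (X × X), Chn F T m Sh = ⋃ u : Fin T, ⋂ k : Fin m,
      (fun z : X × X => (F^[u + k * T] z.1, F^[u + k * T] z.2)) ⁻¹' Sh := by
    intro Sh
    ext z
    simp only [Chn, mem_setOf_eq, mem_iUnion, mem_iInter, mem_preimage]
    constructor
    · rintro ⟨u, hu, h⟩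
      exact ⟨⟨u, hu⟩, fun k => h k k.2⟩
    · rintro ⟨u, h⟩
      exact ⟨u, u.2, fun k hk => h ⟨k, hk⟩⟩
  have h01 : Sh₀ F q L bin κ ⊆ Sh₁ F q L bin b := by
    rintro z (⟨w, w', h, h1, h2⟩ | ⟨h1, h2⟩)
    · exact Or.inl ⟨w, w', h, hκ.trans_le h1, hκ.trans_le h2⟩
    · exact Or.inr ⟨h1.trans_lt hκb, h2.trans_lt hκb⟩
  have hsym0 : Sym (Sh₀ F q L bin κ) := by
    rintro x y (⟨w, w', h, h1, h2⟩ | ⟨h1, h2⟩)
    · exact Or.inl ⟨w', w, h.symm, h2, h1⟩
    · exact Or.inr ⟨h2, h1⟩
  have hsym1 : Sym (Sh₁ F q L bin b) := by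
    rintro x y (⟨w, w', h, h1, h2⟩ | ⟨h1, h2⟩)
    · exact Or.inl ⟨w', w, h.symm, h2, h1⟩
    · exact Or.inr ⟨h2, h1⟩
  have hsymC : ∀ {Sh : Set (X × X)}, Sym Sh → Sym (Chn F T m Sh) := by
    rintro Sh hSh x y ⟨u, hu, h⟩
    exact ⟨u, hu, fun k hk => hSh _ _ (h k hk)⟩
  refine ⟨?_, ?_, ?_, hsymC hsym0, hsymC hsym1⟩
  · rw [hchn]
    exact isClosed_iUnion_of_finite (fun u => isClosed_iInter (fun k => hS0.preimage (hpair _)))
  · rw [hchn]
    exact isOpen_iUnion (fun u => isOpen_iInter_of_finite (fun k => hS1.preimage (hpair _)))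
  · rintro z ⟨u, hu, h⟩
    exact ⟨u, hu, fun k hk => h01 (h k hk)⟩

end Pool.Agent.Helper48.WeissJ
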