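import Pool.Agent.Helper48.WeissJ.Fin
import Pool.Agent.Helper48.WeissJ.Ren
import Pool.Agent.Helper48.WeissJ.Topo
import Pool.Agent.Helper48.WeissJ.Base1
import Pool.Agent.Helper48.WeissJ.Base2
import Pool.Agent.Helper48.WeissJ.Base3
import Pool.Agent.Helper9.WeissJ.Blk
import Pool.Agent.Helper12.WeissJ.CMP
import Pool.Agent.Helper12.WeissJ.PC
import Pool.Agent.Helper18.WeissJ.Met
import Pool.Agent.Helper33.WeissJ.Num
import Pool.Agent.Helper55.WeissJ.Plat
import Pool.Agent.Helper57.WeissJ.Ref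
import Pool.Agent.Helper60.WeissJ.Capsh
import Pool.Agent.Helper78.WeissJ.Cbj
import Pool.Agent.Helper79.WeissJ.Bin
import Pool.Agent.Helper89.WeissJ.TH
import Pool.Agent.Helper94.WeissJ.Freq
import Pool.Agent.Helper94.WeissJ.Nbb
import Pool.Agent.Helper94.WeissJ.Star

/-! The joint theorem. -/

namespace Pool.Agent.Helper48.WeissJ

open Pool.Agent.Helper42.Weiss (IsEquivMetric)

universe u

/-- **Weiss' questions Q1 and Q2, with one metric.** -/
theorem weissJ {X : Type u} [MetricSpace X] [CompactSpace X] (F : X → X) (hF : Continuous F) :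
    ∃ D : X → X → ℝ, IsEquivMetric D ∧ ∀ ε > 0, HasJointRate D F ε :=
  weissJ_of Pool.Agent.Helper94.WeissJ.freq
    (Pool.Agent.Helper57.WeissJ.ref Pool.Agent.Helper89.WeissJ.th Pool.Agent.Helper94.WeissJ.freq)
    (Pool.Agent.Helper94.WeissJ.star ren Pool.Agent.Helper12.WeissPC.pc2)
    Pool.Agent.Helper94.WeissJ.nbb Pool.Agent.Helper9.WeissJ.blk capsh topo
    Pool.Agent.Helper33.WeissJ.num1 Pool.Agent.Helper33.WeissJ.num2 Pool.Agent.Helper79.WeissJ.bin
    (base1 Pool.Agent.Helper89.WeissJ.th Pool.Agent.Helper94.WeissJ.freq) base2 base3 Pool.Agent.Helper12.WeissCMP.cmp Pool.Agent.Helper78.WeissJ.cbj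
    Pool.Agent.Helper18.WeissJ.spb Pool.Agent.Helper18.WeissJ.jrep
    (Pool.Agent.Helper55.WeissJ.plat Pool.Agent.Helper18.WeissJ.spb) F hF

end Pool.Agent.Helper48.WeissJ
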